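import Mathlib

/-!
# The three real embeddings of a totally real cubic field

Norm, Northcott finiteness and the fixed field of two distinct embeddings.
-/

set_option autoImplicit false

namespace Pool.Agent.helper960_jp

open NumberField

variable {K : Type*} [Field K]

/-- A real embedding viewed as a complex embedding. -/
noncomputable def toC (φ : K →+* ℝ) : K →+* ℂ := Complex.ofRealHom.comp φ

theorem toC_apply (φ : K →+* ℝ) (x : K) : toC φ x = ((φ x : ℝ) : ℂ) := rfl

theorem toC_injective : Function.Injective (toC (K := K)) := by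
  intro φ ψ h
  ext x
  have := congrArg (fun f : K →+* ℂ => f x) h
  simp only [toC_apply] at this
  exact_mod_cast this

variable [NumberField K]

/-- Three pairwise distinct real embeddings of a totally real cubic field. -/
structure Conj (σ τ₁ τ₂ : K →+* ℝ) : Prop where
  deg : Module.finrank ℚ K = 3
  h01 : σ ≠ τ₁
  h02 : σ ≠ τ₂
  h12 : τ₁ ≠ τ₂

open scoped Classical in
theorem Conj.univ {σ τ₁ τ₂ : K →+* ℝ} (h : Conj σ τ₁ τ₂) :
    (Finset.univ : Finset (K →+* ℂ)) = {toC σ, toC τ₁, toC τ₂} := by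
  symm
  apply Finset.eq_univ_of_card
  rw [Embeddings.card K ℂ, h.deg]
  rw [Finset.card_eq_three]
  exact ⟨toC σ, toC τ₁, toC τ₂, fun e => h.h01 (toC_injective e), fun e => h.h02 (toC_injective e),
    fun e => h.h12 (toC_injective e), rfl⟩

theorem Conj.cases {σ τ₁ τ₂ : K →+* ℝ} (h : Conj σ τ₁ τ₂) (φ : K →+* ℂ) :
    φ = toC σ ∨ φ = toC τ₁ ∨ φ = toC τ₂ := by
  classical
  have h1 : φ ∈ (Finset.univ : Finset (K →+* ℂ)) := Finset.mem_univ φ
  rw [h.univ] at h1
  simpa using h1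

theorem Conj.norm {σ τ₁ τ₂ : K →+* ℝ} (h : Conj σ τ₁ τ₂) (x : K) :
    ((Algebra.norm ℚ x : ℚ) : ℝ) = σ x * τ₁ x * τ₂ x := by
  classical
  have h1 := Algebra.norm_eq_prod_embeddings ℚ ℂ x
  have h2 : (∏ φ : K →ₐ[ℚ] ℂ, φ x) = ∏ φ : K →+* ℂ, φ x := by
    refine (Fintype.prod_equiv (RingHom.equivRatAlgHom K ℂ) _ _ ?_).symm
    intro φ
    rfl
  rw [h2, h.univ] at h1
  rw [Finset.prod_insert, Finset.prod_insert, Finset.prod_singleton] at h1
  · simp only [toC_apply] at h1
    have h3 : ((Algebra.norm ℚ x : ℚ) : ℂ) = ((σ x * (τ₁ x * τ₂ x) : ℝ) : ℂ) := by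
      push_cast
      rw [← h1]
      rfl
    have h4 : ((Algebra.norm ℚ x : ℚ) : ℝ) = σ x * (τ₁ x * τ₂ x) := by
      exact_mod_cast h3
    rw [h4]; ring
  · simp only [Finset.mem_singleton]
    exact fun e => h.h12 (toC_injective e)
  · simp only [Finset.mem_insert, Finset.mem_singleton, not_or]
    exact ⟨fun e => h.h01 (toC_injective e), fun e => h.h02 (toC_injective e)⟩

/-- In a totally real cubic field every real embedding has two further conjugates. -/
theorem exists_conj (hK : IsTotallyReal K) (hdeg : Module.finrank ℚ K = 3) (σ : K →+* ℝ) :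
    ∃ τ₁ τ₂ : K →+* ℝ, Conj σ τ₁ τ₂ := by
  classical
  have hcard : Fintype.card (K →+* ℂ) = 3 := by rw [Embeddings.card K ℂ, hdeg]
  have h1 : (Finset.univ.erase (toC σ)).card = 2 := by
    rw [Finset.card_erase_of_mem (Finset.mem_univ _), Finset.card_univ, hcard]
  obtain ⟨φ, ψ, hne, hset⟩ := Finset.card_eq_two.1 h1
  have hφ : φ ≠ toC σ := by
    have : φ ∈ Finset.univ.erase (toC σ) := by rw [hset]; simp
    exact (Finset.mem_erase.1 this).1
  have hψ : ψ ≠ toC σ := by
    have : ψ ∈ Finset.univ.erase (toC σ) := by rw [hset]; simp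
    exact (Finset.mem_erase.1 this).1
  have rφ : ComplexEmbedding.IsReal φ := hK.complexEmbedding_isReal φ
  have rψ : ComplexEmbedding.IsReal ψ := hK.complexEmbedding_isReal ψ
  have eφ : toC rφ.embedding = φ := by
    ext x
    rw [toC_apply]; exact rφ.coe_embedding_apply x
  have eψ : toC rψ.embedding = ψ := by
    ext x
    rw [toC_apply]; exact rψ.coe_embedding_apply x
  refine ⟨rφ.embedding, rψ.embedding, hdeg, ?_, ?_, ?_⟩
  · intro e
    apply hφ
    rw [← eφ, ← e]
  · intro e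
    apply hψ
    rw [← eψ, ← e]
  · intro e
    apply hne
    rw [← eφ, ← eψ, e]

/-- The common fixed set of two distinct embeddings of a cubic field is the prime field. -/
theorem rat_of_eq (hdeg : Module.finrank ℚ K = 3) {τ₁ τ₂ : K →+* ℝ} (h12 : τ₁ ≠ τ₂) {x : K}
    (hx : τ₁ x = τ₂ x) : ∃ r : ℚ, x = (r : K) := by
  have : IsSimpleOrder (Subalgebra ℚ K) := by
    apply Subalgebra.isSimpleOrder_of_finrank_prime
    rw [hdeg]; norm_num
  rcases eq_bot_or_eq_top (AlgHom.equalizer τ₁.toRatAlgHom τ₂.toRatAlgHom) with hb | ht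
  · have hmem : x ∈ AlgHom.equalizer τ₁.toRatAlgHom τ₂.toRatAlgHom := by
      rw [AlgHom.mem_equalizer]
      exact hx
    rw [hb, Algebra.mem_bot] at hmem
    obtain ⟨r, hr⟩ := hmem
    refine ⟨r, ?_⟩
    rw [← hr]
    simp
  · exfalso
    apply h12
    ext y
    have hmem : y ∈ AlgHom.equalizer τ₁.toRatAlgHom τ₂.toRatAlgHom := by
      rw [ht]; exact Algebra.mem_top
    rw [AlgHom.mem_equalizer] at hmem
    exact hmem

/-- Northcott finiteness with a bounded denominator. -/
theorem Conj.finite {σ τ₁ τ₂ : K →+* ℝ} (h : Conj σ τ₁ τ₂) (D : ℕ) (hD : D ≠ 0) (B : ℝ) :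
    {x : K | IsIntegral ℤ ((D : K) * x) ∧ |σ x| ≤ B ∧ |τ₁ x| ≤ B ∧ |τ₂ x| ≤ B}.Finite := by
  have h1 := NumberField.Embeddings.finite_of_norm_le K ℂ ((D : ℝ) * B)
  have hinj : Function.Injective (fun x : K => (D : K) * x) := by
    intro x y hxy
    have hD' : (D : K) ≠ 0 := by exact_mod_cast hD
    exact mul_left_cancel₀ hD' hxy
  refine (h1.preimage (f := fun x : K => (D : K) * x) hinj.injOn).subset ?_
  rintro x ⟨hx, h0, h2, h3⟩
  refine ⟨hx, fun φ => ?_⟩
  have key : ∀ ψ : K →+* ℝ, |ψ x| ≤ B → ‖toC ψ ((D : K) * x)‖ ≤ (D : ℝ) * B := by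
    intro ψ hψ
    rw [toC_apply, Complex.norm_real, map_mul, map_natCast, norm_mul, Real.norm_eq_abs,
      Real.norm_eq_abs, abs_of_nonneg (Nat.cast_nonneg D)]
    exact mul_le_mul_of_nonneg_left hψ (Nat.cast_nonneg D)
  rcases h.cases φ with e | e | e
  · rw [e]; exact key σ h0
  · rw [e]; exact key τ₁ h2
  · rw [e]; exact key τ₂ h3

/-- The absolute norm of a nonzero integral element as a positive natural number. -/
theorem exists_natNorm {G : K} (hG : IsIntegral ℤ G) (hG0 : G ≠ 0) :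
    ∃ n : ℕ, 0 < n ∧ |((Algebra.norm ℚ G : ℚ) : ℝ)| = n ∧
      ∀ x : K, IsIntegral ℤ (G * x) → IsIntegral ℤ ((n : K) * x) := by
  let g : 𝓞 K := ⟨G, hG⟩
  have hg : (algebraMap (𝓞 K) K) g = G := rfl
  refine ⟨Ideal.absNorm (Ideal.span {g}), ?_, ?_, ?_⟩
  · apply Nat.pos_of_ne_zero
    rw [Ne, Ideal.absNorm_eq_zero_iff, Ideal.span_singleton_eq_bot]
    intro h
    apply hG0
    rw [← hg, h, map_zero]
  · rw [Ideal.absNorm_span_singleton]
    have h1 : (Algebra.norm ℚ G : ℚ) = ((Algebra.norm ℤ g : ℤ) : ℚ) := by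
      rw [← hg]
      exact (Algebra.coe_norm_int g).symm
    rw [h1]
    have h2 : (((Algebra.norm ℤ g : ℤ) : ℚ) : ℝ) = ((Algebra.norm ℤ g : ℤ) : ℝ) := by
      push_cast; rfl
    rw [h2]
    rw [Nat.cast_natAbs]
    push_cast
    rfl
  · intro x hx
    have h1 := Ideal.absNorm_mem (Ideal.span {g})
    rw [Ideal.mem_span_singleton] at h1
    obtain ⟨c, hc⟩ := h1
    have h2 : ((Ideal.absNorm (Ideal.span {g}) : ℕ) : K) = G * (algebraMap (𝓞 K) K c) := by
      have := congrArg (algebraMap (𝓞 K) K) hc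
      rw [map_mul, map_natCast] at this
      exact this
    rw [h2]
    have h3 : G * (algebraMap (𝓞 K) K c) * x = (algebraMap (𝓞 K) K c) * (G * x) := by ring
    rw [h3]
    exact IsIntegral.mul (NumberField.RingOfIntegers.isIntegral_coe c) hx

end Pool.Agent.helper960_jp
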