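import Pool.Agent.helper960_jp.Rate

/-!
# Unbalanced cycles are finite in number
-/

set_option autoImplicit false

namespace Pool.Agent.helper960_jp

open NumberField Filter Topology

variable {K : Type*} [Field K] [NumberField K]

theorem Conj.trace {σ τ₁ τ₂ : K →+* ℝ} (h : Conj σ τ₁ τ₂) (x : K) :
    ((Algebra.trace ℚ K x : ℚ) : ℝ) = σ x + τ₁ x + τ₂ x := by
  classical
  have h1 := trace_eq_sum_embeddings (K := ℚ) (L := K) ℂ (x := x)
  have h2 : (∑ φ : K →ₐ[ℚ] ℂ, φ x) = ∑ φ : K →+* ℂ, φ x := by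
    refine (Fintype.sum_equiv (RingHom.equivRatAlgHom K ℂ) _ _ ?_).symm
    intro φ
    rfl
  rw [h2, h.univ] at h1
  rw [Finset.sum_insert, Finset.sum_insert, Finset.sum_singleton] at h1
  · simp only [toC_apply] at h1
    have h3 : ((Algebra.trace ℚ K x : ℚ) : ℂ) = ((σ x + (τ₁ x + τ₂ x) : ℝ) : ℂ) := by
      push_cast
      rw [← h1]
      rfl
    have h4 : ((Algebra.trace ℚ K x : ℚ) : ℝ) = σ x + (τ₁ x + τ₂ x) := by
      exact_mod_cast h3
    rw [h4]; ring
  · simp only [Finset.mem_singleton]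
    exact fun e => h.h12 (toC_injective e)
  · simp only [Finset.mem_insert, Finset.mem_singleton, not_or]
    exact ⟨fun e => h.h01 (toC_injective e), fun e => h.h02 (toC_injective e)⟩

/-- The discriminant of `(G, G y, G z)`. -/
theorem Conj.discr {σ τ₁ τ₂ : K →+* ℝ} (h : Conj σ τ₁ τ₂) (G : K) (q : K × K) :
    ((Algebra.discr ℚ ![G, G * q.1, G * q.2] : ℚ) : ℝ)
      = (|((Algebra.norm ℚ G : ℚ) : ℝ)| * |DD σ τ₁ τ₂ q|) ^ 2 := by
  rw [Algebra.discr_def, Matrix.det_fin_three]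
  simp only [Algebra.traceMatrix_apply, Algebra.traceForm_apply, Matrix.cons_val_zero,
    Matrix.cons_val_one, Matrix.cons_val]
  push_cast
  simp only [h.trace, map_mul]
  rw [mul_pow, sq_abs, sq_abs, h.norm G, DD]
  ring

theorem Conj.finite_cycles {σ τ₁ τ₂ : K →+* ℝ} (hc : Conj σ τ₁ τ₂) (D δ : ℝ) (hδ : 0 < δ) :
    {q : K × K | Adm σ q ∧
      (∃ p : ℕ, 0 < p ∧ orb σ q p = q ∧ δ * p ≤ |RR σ τ₁ τ₂ q p|) ∧
      (∃ G : K, G ≠ 0 ∧ IsIntegral ℤ G ∧ IsIntegral ℤ (G * q.1) ∧ IsIntegral ℤ (G * q.2) ∧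
        ((Algebra.discr ℚ ![G, G * q.1, G * q.2] : ℚ) : ℝ) ≤ D)}.Finite := by
  set B : ℝ := Real.sqrt D + 1 with hB
  have hB0 : 0 < B := by positivity
  set ε : ℝ := 1 - Real.exp (-δ) with hε
  have hε0 : 0 < ε := by
    have : Real.exp (-δ) < 1 := by rw [Real.exp_lt_one_iff]; linarith
    rw [hε]; linarith
  have hfin := Red.finite hc hB0 hε0 0 1 0
  set S := {q : K × K | Red σ τ₁ τ₂ B q ∧ lin 0 1 0 q ≠ 0 ∧
      ε * |τ₂ (lin 0 1 0 q)| ≤ |τ₁ (lin 0 1 0 q) - τ₂ (lin 0 1 0 q)|} with hS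
  have hS' : ({s ∈ S | ∃ p : ℕ, 0 < p ∧ orb σ s p = s}).Finite := hfin.subset (fun s hs => hs.1)
  have hU : (⋃ s ∈ {s ∈ S | ∃ p : ℕ, 0 < p ∧ orb σ s p = s}, Set.range (orb σ s)).Finite := by
    apply hS'.biUnion
    rintro s ⟨-, p, hp, he⟩
    have he' : orb σ s (0 + p) = orb σ s 0 := by rw [zero_add]; exact he
    refine (Set.Finite.image (orb σ s) (Set.finite_lt_nat p)).subset ?_
    rintro _ ⟨i, rfl⟩
    refine ⟨i % p, Nat.mod_lt _ hp, ?_⟩
    have h1 := KPer.mul he' (i % p) (Nat.zero_le _) (i / p)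
    rw [← h1]
    congr 1
    rw [mul_comm]
    exact Nat.mod_add_div i p
  refine hU.subset ?_
  rintro q ⟨h, ⟨p, hp, he, hunb⟩, G, hG0, hG, hy, hz, hdisc⟩
  -- the constant
  have hBq : |((Algebra.norm ℚ G : ℚ) : ℝ)| * |DD σ τ₁ τ₂ q| ≤ B := by
    rw [hc.discr] at hdisc
    have h1 := Real.le_sqrt_of_sq_le hdisc
    linarith
  have he' : orb σ q (0 + p) = orb σ q 0 := by rw [zero_add]; exact he
  obtain ⟨j₀, hj₀⟩ := h.eventually_bound (hc.DD_ne h.ind)
  have hred : ∀ k, Red σ τ₁ τ₂ B (orb σ q k) := by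
    intro k
    rw [← KPer.mul he' k (Nat.zero_le _) j₀]
    obtain ⟨b2, b0, b1⟩ := hj₀ (k + j₀ * p) (by nlinarith)
    exact hc.red_of_bounds h hG0 hG hy hz hBq b2 b0 b1
  -- an unbalanced step
  obtain ⟨j, hj, hjδ⟩ : ∃ j, j < p ∧ δ ≤ |Real.log (|τ₁ (orb σ q j).1| / |τ₂ (orb σ q j).1|)| := by
    by_contra hcon
    push Not at hcon
    rw [RR_sum σ τ₁ τ₂ h] at hunb
    have h1 : |∑ j ∈ Finset.range p, Real.log (|τ₁ (orb σ q j).1| / |τ₂ (orb σ q j).1|)|
        ≤ ∑ j ∈ Finset.range p, |Real.log (|τ₁ (orb σ q j).1| / |τ₂ (orb σ q j).1|)| :=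
      Finset.abs_sum_le_sum_abs _ _
    have h2 : ∑ j ∈ Finset.range p, |Real.log (|τ₁ (orb σ q j).1| / |τ₂ (orb σ q j).1|)|
        < ∑ j ∈ Finset.range p, δ := by
      apply Finset.sum_lt_sum_of_nonempty
      · exact ⟨0, Finset.mem_range.2 hp⟩
      · intro i hi
        exact hcon i (Finset.mem_range.1 hi)
    rw [Finset.sum_const, Finset.card_range, nsmul_eq_mul] at h2
    linarith
  have hjne := (h.orbA j).ne
  have hlin : lin 0 1 0 (orb σ q j) = (orb σ q j).1 := by simp [lin]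
  have hmem : orb σ q j ∈ S := by
    refine ⟨hred j, by rw [hlin]; exact hjne, ?_⟩
    rw [hlin]
    have n1 : 0 < |τ₁ (orb σ q j).1| := abs_pos.2 (by rw [Ne, map_eq_zero]; exact hjne)
    have n2 : 0 < |τ₂ (orb σ q j).1| := abs_pos.2 (by rw [Ne, map_eq_zero]; exact hjne)
    set u := |τ₁ (orb σ q j).1| with hu
    set v := |τ₂ (orb σ q j).1| with hv
    have h3 : |u - v| ≤ |τ₁ (orb σ q j).1 - τ₂ (orb σ q j).1| := by
      rw [hu, hv]; exact abs_abs_sub_abs_le _ _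
    refine le_trans ?_ h3
    have hpos : 0 < u / v := div_pos n1 n2
    have hexp : Real.exp (Real.log (u / v)) = u / v := Real.exp_log hpos
    have huv : u = u / v * v := by field_simp
    rcases le_abs'.1 hjδ with hneg | hge
    · have h4 : u / v ≤ Real.exp (-δ) := by rw [← hexp]; exact Real.exp_le_exp.2 hneg
      have h5 : u ≤ Real.exp (-δ) * v := by
        rw [huv]; exact mul_le_mul_of_nonneg_right h4 n2.le
      rw [abs_sub_comm]
      refine le_trans ?_ (le_abs_self _)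
      rw [hε]; linarith
    · have h4 : Real.exp δ ≤ u / v := by rw [← hexp]; exact Real.exp_le_exp.2 hge
      have h5 : Real.exp δ * v ≤ u := by
        rw [huv]; exact mul_le_mul_of_nonneg_right h4 n2.le
      refine le_trans ?_ (le_abs_self _)
      have h6 : 1 - Real.exp (-δ) ≤ Real.exp δ - 1 := by
        have h7 := Real.add_one_le_exp δ
        have h8 := Real.add_one_le_exp (-δ)
        linarith
      have h9 : (1 - Real.exp (-δ)) * v ≤ (Real.exp δ - 1) * v :=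
        mul_le_mul_of_nonneg_right h6 n2.le
      rw [hε]; linarith
  rw [Set.mem_iUnion₂]
  refine ⟨orb σ q j, ⟨hmem, p, hp, ?_⟩, p - j, ?_⟩
  · rw [← orb_add]
    have := KPer.shift he' j (Nat.zero_le _)
    exact this
  · show orb σ (orb σ q j) (p - j) = q
    rw [← orb_add, show j + (p - j) = p by omega, he]

end Pool.Agent.helper960_jp
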