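import Pool.Agent.helper960_jp.Conj

/-!
# The finiteness lemma

`Red σ τ₁ τ₂ B q` says that the pair `q = (y, z)` of elements of `K` is reduced with constant `B`:
the three `2 × 2` minors of the matrix with rows `(1, τ₁ y, τ₁ z)`, `(1, τ₂ y, τ₂ z)`, multiplied
with the norm of a denominator, are at most `B`.  `Red.finite` is the main finiteness statement:
among the reduced pairs only finitely many have `τ₁ L / τ₂ L` at distance at least `ε` from `1`,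
where `L = c₀ + c₁ y + c₂ z`.
-/

set_option autoImplicit false

namespace Pool.Agent.helper960_jp

open NumberField

variable {K : Type*} [Field K] [NumberField K]

/-- Reduced pairs. -/
structure Red (σ τ₁ τ₂ : K →+* ℝ) (B : ℝ) (q : K × K) : Prop where
  y0 : 0 < σ q.1
  y1 : σ q.1 < 1
  z0 : 0 < σ q.2
  z1 : σ q.2 < 1
  ex : ∃ G : K, G ≠ 0 ∧ IsIntegral ℤ G ∧ IsIntegral ℤ (G * q.1) ∧ IsIntegral ℤ (G * q.2) ∧
    |τ₁ q.1 * τ₂ q.2 - τ₁ q.2 * τ₂ q.1| * |((Algebra.norm ℚ G : ℚ) : ℝ)| ≤ B ∧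
    |τ₁ q.2 - τ₂ q.2| * |((Algebra.norm ℚ G : ℚ) : ℝ)| ≤ B ∧
    |τ₂ q.1 - τ₁ q.1| * |((Algebra.norm ℚ G : ℚ) : ℝ)| ≤ B

/-- The integer linear form `c₀ + c₁ y + c₂ z`. -/
def lin (c₀ c₁ c₂ : ℤ) (q : K × K) : K := (c₀ : K) + (c₁ : K) * q.1 + (c₂ : K) * q.2

omit [NumberField K] in
theorem map_lin (φ : K →+* ℝ) (c₀ c₁ c₂ : ℤ) (q : K × K) :
    φ (lin c₀ c₁ c₂ q) = (c₀ : ℝ) + (c₁ : ℝ) * φ q.1 + (c₂ : ℝ) * φ q.2 := by
  simp [lin]

theorem Red.finite {σ τ₁ τ₂ : K →+* ℝ} (h : Conj σ τ₁ τ₂) {B ε : ℝ} (hB : 0 < B) (hε : 0 < ε)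
    (c₀ c₁ c₂ : ℤ) :
    {q : K × K | Red σ τ₁ τ₂ B q ∧ lin c₀ c₁ c₂ q ≠ 0 ∧
      ε * |τ₂ (lin c₀ c₁ c₂ q)| ≤ |τ₁ (lin c₀ c₁ c₂ q) - τ₂ (lin c₀ c₁ c₂ q)|}.Finite := by
  set C : ℝ := 1 + |(c₀ : ℝ)| + |(c₁ : ℝ)| + |(c₂ : ℝ)| with hC
  have ac0 := abs_nonneg (c₀ : ℝ)
  have ac1 := abs_nonneg (c₁ : ℝ)
  have ac2 := abs_nonneg (c₂ : ℝ)
  have hC1 : 1 ≤ C := by rw [hC]; linarith
  have hC0 : 0 < C := by linarith
  set A : ℝ := C * B * (1 + ε) / ε with hA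
  have hA0 : 0 < A := by positivity
  set E : ℝ := C * A with hE
  have hE0 : 0 < E := by positivity
  set δ : ℝ := ε / E with hδ
  have hδ0 : 0 < δ := by positivity
  set Y : ℝ := (2 * (C * B) + A * B) / δ with hY
  have hY0 : 0 < Y := by positivity
  set m : ℕ := ⌊C * (C * B * (C * B * (1 + ε))) / (ε * ε)⌋₊ with hm
  have hS := h.finite (Nat.factorial m) (Nat.factorial_ne_zero m) (Y + B + 1)
  refine (hS.prod hS).subset ?_
  rintro ⟨y, z⟩ ⟨hred, hL0, hLε⟩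
  obtain ⟨G, hG0, hG, hGy, hGz, hW0, hW1, hW2⟩ := hred.ex
  obtain ⟨n, hn0, hnn, hnint⟩ := exists_natNorm hG hG0
  rw [hnn] at hW0 hW1 hW2
  have hy0 : 0 < σ y := hred.y0
  have hy1 : σ y < 1 := hred.y1
  have hz0 : 0 < σ z := hred.z0
  have hz1 : σ z < 1 := hred.z1
  simp only at hW0 hW1 hW2 hGy hGz
  have hn1 : (1 : ℝ) ≤ n := by exact_mod_cast hn0
  have hnpos : (0 : ℝ) < n := by linarith
  set L : K := lin c₀ c₁ c₂ (y, z) with hL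
  have eσ : σ L = (c₀ : ℝ) + (c₁ : ℝ) * σ y + (c₂ : ℝ) * σ z := map_lin σ c₀ c₁ c₂ (y, z)
  have e1 : τ₁ L = (c₀ : ℝ) + (c₁ : ℝ) * τ₁ y + (c₂ : ℝ) * τ₁ z := map_lin τ₁ c₀ c₁ c₂ (y, z)
  have e2 : τ₂ L = (c₀ : ℝ) + (c₁ : ℝ) * τ₂ y + (c₂ : ℝ) * τ₂ z := map_lin τ₂ c₀ c₁ c₂ (y, z)
  set W0 : ℝ := τ₁ y * τ₂ z - τ₁ z * τ₂ y with hW0d
  set W1 : ℝ := τ₁ z - τ₂ z with hW1d
  set W2 : ℝ := τ₂ y - τ₁ y with hW2d
  set l1 : ℝ := τ₁ L with hl1
  set l2 : ℝ := τ₂ L with hl2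
  -- bounds for `W`
  have bW0 : |W0| ≤ B := le_trans (by nlinarith [abs_nonneg W0]) hW0
  have bW1 : |W1| ≤ B := le_trans (by nlinarith [abs_nonneg W1]) hW1
  have bW2 : |W2| ≤ B := le_trans (by nlinarith [abs_nonneg W2]) hW2
  -- bound for `σ L`
  have bσ : |σ L| ≤ C := by
    rw [eσ]
    have t1 : |(c₁ : ℝ) * σ y| ≤ |(c₁ : ℝ)| := by
      rw [abs_mul, abs_of_pos hy0]; nlinarith
    have t2 : |(c₂ : ℝ) * σ z| ≤ |(c₂ : ℝ)| := by
      rw [abs_mul, abs_of_pos hz0]; nlinarith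
    have t3 := abs_add_le ((c₀ : ℝ) + (c₁ : ℝ) * σ y) ((c₂ : ℝ) * σ z)
    have t4 := abs_add_le (c₀ : ℝ) ((c₁ : ℝ) * σ y)
    rw [hC]; linarith
  -- the difference
  have hdiff : l1 - l2 = (c₂ : ℝ) * W1 - (c₁ : ℝ) * W2 := by
    rw [e1, e2, hW1d, hW2d]; ring
  have bdiff : |l1 - l2| * n ≤ C * B := by
    rw [hdiff]
    have t1 : |(c₂ : ℝ) * W1 - (c₁ : ℝ) * W2| ≤ |(c₂ : ℝ)| * |W1| + |(c₁ : ℝ)| * |W2| := by
      have := abs_sub ((c₂ : ℝ) * W1) ((c₁ : ℝ) * W2)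
      rwa [abs_mul, abs_mul] at this
    have t2 : (|(c₂ : ℝ)| * |W1| + |(c₁ : ℝ)| * |W2|) * n
        = |(c₂ : ℝ)| * (|W1| * n) + |(c₁ : ℝ)| * (|W2| * n) := by ring
    have t3 : |(c₂ : ℝ)| * (|W1| * n) ≤ |(c₂ : ℝ)| * B := mul_le_mul_of_nonneg_left hW1 ac2
    have t4 : |(c₁ : ℝ)| * (|W2| * n) ≤ |(c₁ : ℝ)| * B := mul_le_mul_of_nonneg_left hW2 ac1
    have t5 : (|(c₂ : ℝ)| + |(c₁ : ℝ)|) * B ≤ C * B := by
      apply mul_le_mul_of_nonneg_right _ hB.le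
      rw [hC]; linarith
    calc |(c₂ : ℝ) * W1 - (c₁ : ℝ) * W2| * n ≤ (|(c₂ : ℝ)| * |W1| + |(c₁ : ℝ)| * |W2|) * n :=
          mul_le_mul_of_nonneg_right t1 hnpos.le
      _ ≤ C * B := by rw [t2]; linarith
  have b2 : |l2| * n * ε ≤ C * B := by
    have : ε * |l2| * n ≤ |l1 - l2| * n := mul_le_mul_of_nonneg_right hLε hnpos.le
    calc |l2| * n * ε = ε * |l2| * n := by ring
      _ ≤ C * B := le_trans this bdiff
  have b1 : |l1| * n * ε ≤ C * B * (1 + ε) := by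
    have t1 : |l1| ≤ |l2| + |l1 - l2| := by
      have := abs_add_le l2 (l1 - l2)
      have e : l2 + (l1 - l2) = l1 := by ring
      rwa [e] at this
    have t2 : |l1| * n * ε ≤ (|l2| + |l1 - l2|) * n * ε :=
      mul_le_mul_of_nonneg_right (mul_le_mul_of_nonneg_right t1 hnpos.le) hε.le
    have t3 : |l1 - l2| * n * ε ≤ C * B * ε := mul_le_mul_of_nonneg_right bdiff hε.le
    nlinarith
  have b1' : |l1| * n ≤ A := by
    rw [hA, le_div_iff₀ hε]; exact b1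
  -- the norm inequality
  have hnorm : 1 ≤ n * (C * (|l1| * |l2|)) := by
    have hGL : IsIntegral ℤ (G * L) := by
      have : G * L = (c₀ : K) * G + (c₁ : K) * (G * y) + (c₂ : K) * (G * z) := by
        rw [hL, lin]; ring
      rw [this]
      exact ((((isIntegral_algebraMap (R := ℤ) (x := c₀)).mul hG)).add
        ((isIntegral_algebraMap (R := ℤ) (x := c₁)).mul hGy)).add
        ((isIntegral_algebraMap (R := ℤ) (x := c₂)).mul hGz)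
    obtain ⟨n', hn'0, hn'n, -⟩ := exists_natNorm hGL (mul_ne_zero hG0 hL0)
    have t1 : ((Algebra.norm ℚ (G * L) : ℚ) : ℝ)
        = ((Algebra.norm ℚ G : ℚ) : ℝ) * (σ L * l1 * l2) := by
      rw [map_mul]
      push_cast
      rw [h.norm L]
    rw [t1, abs_mul, hnn, abs_mul, abs_mul] at hn'n
    have t2 : (1 : ℝ) ≤ n' := by exact_mod_cast hn'0
    rw [← hn'n] at t2
    have t3 : |σ L| * (|l1| * |l2|) ≤ C * (|l1| * |l2|) :=
      mul_le_mul_of_nonneg_right bσ (by positivity)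
    have t4 : (n : ℝ) * (|σ L| * (|l1| * |l2|)) ≤ n * (C * (|l1| * |l2|)) :=
      mul_le_mul_of_nonneg_left t3 hnpos.le
    calc (1 : ℝ) ≤ n * (|σ L| * |l1| * |l2|) := t2
      _ = n * (|σ L| * (|l1| * |l2|)) := by ring
      _ ≤ _ := t4
  -- `n` is bounded
  have bn : (n : ℝ) ≤ C * (C * B * (C * B * (1 + ε))) / (ε * ε) := by
    rw [le_div_iff₀ (by positivity)]
    have t1 : (|l2| * n * ε) * (|l1| * n * ε) ≤ (C * B) * (C * B * (1 + ε)) :=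
      mul_le_mul b2 b1 (by positivity) (by positivity)
    have t2 : (n * ε) * (n * ε) ≤ (n * ε) * (n * ε) * (n * (C * (|l1| * |l2|))) := by
      have : 0 ≤ (n * ε) * (n * ε) := by positivity
      nlinarith
    have t3 : (n * ε) * (n * ε) * (n * (C * (|l1| * |l2|)))
        = n * (C * ((|l2| * n * ε) * (|l1| * n * ε))) := by ring
    have t4 : n * (C * ((|l2| * n * ε) * (|l1| * n * ε))) ≤ n * (C * ((C * B) * (C * B * (1 + ε)))) :=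
      mul_le_mul_of_nonneg_left (mul_le_mul_of_nonneg_left t1 hC0.le) hnpos.le
    have t5 : n * (n * (ε * ε)) ≤ n * (C * ((C * B) * (C * B * (1 + ε)))) := by
      calc n * (n * (ε * ε)) = (n * ε) * (n * ε) := by ring
        _ ≤ _ := t2
        _ = _ := t3
        _ ≤ _ := t4
    exact le_of_mul_le_mul_left t5 hnpos
  have hnm : n ≤ m := by
    rw [hm]; exact Nat.le_floor bn
  -- lower bound for the difference
  have bl2 : 1 ≤ E * |l2| := by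
    calc (1 : ℝ) ≤ n * (C * (|l1| * |l2|)) := hnorm
      _ = C * (|l1| * n) * |l2| := by ring
      _ ≤ C * A * |l2| := by
          apply mul_le_mul_of_nonneg_right _ (abs_nonneg _)
          exact mul_le_mul_of_nonneg_left b1' hC0.le
      _ = E * |l2| := by rw [hE]
  have bd : δ ≤ |l1 - l2| := by
    refine le_trans ?_ hLε
    rw [hδ, div_le_iff₀ hE0]
    nlinarith
  have bl1 : |l1| ≤ A := le_trans (by nlinarith [abs_nonneg l1]) b1'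
  -- bounds for `τ₁ y` and `τ₁ z`
  have iy : τ₁ y * (l2 - l1) = (c₂ : ℝ) * W0 - (c₀ : ℝ) * W2 + l1 * W2 := by
    rw [e1, e2, hW0d, hW2d]; ring
  have iz : τ₁ z * (l2 - l1) = (c₀ : ℝ) * W1 - (c₁ : ℝ) * W0 - l1 * W1 := by
    rw [e1, e2, hW0d, hW1d]; ring
  have cc0 : |(c₀ : ℝ)| ≤ C := by rw [hC]; linarith
  have cc1 : |(c₁ : ℝ)| ≤ C := by rw [hC]; linarith
  have cc2 : |(c₂ : ℝ)| ≤ C := by rw [hC]; linarith
  have prodB : ∀ u v U V : ℝ, |u| ≤ U → |v| ≤ V → 0 ≤ U → |u * v| ≤ U * V := by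
    intro u v U V hu hv hU
    rw [abs_mul]
    exact mul_le_mul hu hv (abs_nonneg _) hU
  have by1 : |τ₁ y| ≤ Y := by
    rw [hY, le_div_iff₀ hδ0]
    have t1 : |τ₁ y| * δ ≤ |τ₁ y| * |l1 - l2| := mul_le_mul_of_nonneg_left bd (abs_nonneg _)
    have t2 : |τ₁ y| * |l1 - l2| = |(c₂ : ℝ) * W0 - (c₀ : ℝ) * W2 + l1 * W2| := by
      rw [← iy, abs_mul, abs_sub_comm]
    have t3 := abs_add_le ((c₂ : ℝ) * W0 - (c₀ : ℝ) * W2) (l1 * W2)
    have t4 := abs_sub ((c₂ : ℝ) * W0) ((c₀ : ℝ) * W2)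
    have t5 := prodB _ _ _ _ cc2 bW0 hC0.le
    have t6 := prodB _ _ _ _ cc0 bW2 hC0.le
    have t7 := prodB _ _ _ _ bl1 bW2 hA0.le
    linarith
  have bz1 : |τ₁ z| ≤ Y := by
    rw [hY, le_div_iff₀ hδ0]
    have t1 : |τ₁ z| * δ ≤ |τ₁ z| * |l1 - l2| := mul_le_mul_of_nonneg_left bd (abs_nonneg _)
    have t2 : |τ₁ z| * |l1 - l2| = |(c₀ : ℝ) * W1 - (c₁ : ℝ) * W0 - l1 * W1| := by
      rw [← iz, abs_mul, abs_sub_comm]
    have t3 := abs_sub ((c₀ : ℝ) * W1 - (c₁ : ℝ) * W0) (l1 * W1)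
    have t4 := abs_sub ((c₀ : ℝ) * W1) ((c₁ : ℝ) * W0)
    have t5 := prodB _ _ _ _ cc0 bW1 hC0.le
    have t6 := prodB _ _ _ _ cc1 bW0 hC0.le
    have t7 := prodB _ _ _ _ bl1 bW1 hA0.le
    linarith
  have by2 : |τ₂ y| ≤ Y + B := by
    have := abs_add_le (τ₁ y) W2
    have e : τ₁ y + W2 = τ₂ y := by rw [hW2d]; ring
    rw [e] at this
    linarith
  have bz2 : |τ₂ z| ≤ Y + B := by
    have := abs_sub (τ₁ z) W1
    have e : τ₁ z - W1 = τ₂ z := by rw [hW1d]; ring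
    rw [e] at this
    linarith
  have hdvd : n ∣ Nat.factorial m := Nat.dvd_factorial hn0 hnm
  obtain ⟨t, ht⟩ := hdvd
  have hint : ∀ x : K, IsIntegral ℤ (G * x) → IsIntegral ℤ (((Nat.factorial m : ℕ) : K) * x) := by
    intro x hx
    have h1 := hnint x hx
    have e : ((Nat.factorial m : ℕ) : K) * x = (t : K) * ((n : K) * x) := by
      rw [ht]; push_cast; ring
    rw [e]
    have h2 : IsIntegral ℤ ((t : ℕ) : K) := by
      have := isIntegral_algebraMap (R := ℤ) (A := K) (x := (t : ℤ))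
      simpa using this
    exact h2.mul h1
  refine Set.mem_prod.2 ⟨⟨hint y hGy, ?_, ?_, ?_⟩, ⟨hint z hGz, ?_, ?_, ?_⟩⟩
  · show |σ y| ≤ _
    rw [abs_of_pos hy0]; linarith
  · show |τ₁ y| ≤ _
    linarith
  · show |τ₂ y| ≤ _
    linarith
  · show |σ z| ≤ _
    rw [abs_of_pos hz0]; linarith
  · show |τ₁ z| ≤ _
    linarith
  · show |τ₂ z| ≤ _
    linarith

end Pool.Agent.helper960_jp
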