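import Pool.Agent.helper960_jp.Orbit

/-!
# The dichotomy

For a nonperiodic expansion the quotient of the two conjugates of every integer linear form of the
complete quotients tends to `1`.
-/

set_option autoImplicit false

namespace Pool.Agent.helper960_jp

open NumberField Filter Topology

section general

variable {K : Type*} [Field K]

/-- Eventual periodicity of the `K`-valued orbit. -/
def KPer (σ : K →+* ℝ) (q : K × K) : Prop := ∃ N p : ℕ, 0 < p ∧ orb σ q (N + p) = orb σ q N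

/-- Eventual periodicity of the digits, literally as in the frozen statement. -/
def DigPer (σ : K →+* ℝ) (q : K × K) : Prop :=
  ∃ N p : ℕ, 0 < p ∧ ∀ n : ℕ, N ≤ n →
    (fun q : ℝ × ℝ => (⌊q.2 / q.1⌋, ⌊1 / q.1⌋))
        ((fun q : ℝ × ℝ => (Int.fract (q.2 / q.1), Int.fract (1 / q.1)))^[n + p] (σ q.1, σ q.2))
      = (fun q : ℝ × ℝ => (⌊q.2 / q.1⌋, ⌊1 / q.1⌋))
        ((fun q : ℝ × ℝ => (Int.fract (q.2 / q.1), Int.fract (1 / q.1)))^[n] (σ q.1, σ q.2))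

theorem digits_eq (σ : K →+* ℝ) (q : K × K) (n : ℕ) :
    (fun q : ℝ × ℝ => (⌊q.2 / q.1⌋, ⌊1 / q.1⌋))
        ((fun q : ℝ × ℝ => (Int.fract (q.2 / q.1), Int.fract (1 / q.1)))^[n] (σ q.1, σ q.2))
      = (dB σ (orb σ q n), dA σ (orb σ q n)) := by
  rw [real_orbit]
  simp only [dA, dB, map_div₀, map_one]

theorem orb_shift_of_eq {σ : K →+* ℝ} {q : K × K} {N M : ℕ} (h : orb σ q M = orb σ q N) (k : ℕ) :
    orb σ q (M + k) = orb σ q (N + k) := by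
  rw [orb_add, orb_add, h]

theorem KPer.shift {σ : K →+* ℝ} {q : K × K} {N p : ℕ} (h : orb σ q (N + p) = orb σ q N) (n : ℕ)
    (hn : N ≤ n) : orb σ q (n + p) = orb σ q n := by
  obtain ⟨k, rfl⟩ := Nat.exists_eq_add_of_le hn
  have := orb_shift_of_eq h k
  rw [show N + k + p = N + p + k by ring]
  exact this

theorem KPer.mul {σ : K →+* ℝ} {q : K × K} {N p : ℕ} (h : orb σ q (N + p) = orb σ q N) (n : ℕ)
    (hn : N ≤ n) (j : ℕ) : orb σ q (n + j * p) = orb σ q n := by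
  induction j with
  | zero => simp
  | succ j ih =>
    rw [show n + (j + 1) * p = n + j * p + p by ring, KPer.shift h _ (by omega), ih]

theorem Adm.digPer_iff {σ : K →+* ℝ} {q : K × K} (h : Adm σ q) : DigPer σ q ↔ KPer σ q := by
  constructor
  · rintro ⟨N, p, hp, hd⟩
    refine ⟨N, p, hp, ?_⟩
    have hd' : ∀ k, (dB σ (orb σ q (N + k + p)), dA σ (orb σ q (N + k + p)))
        = (dB σ (orb σ q (N + k)), dA σ (orb σ q (N + k))) := by
      intro k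
      have := hd (N + k) (by omega)
      rw [digits_eq, digits_eq] at this
      exact this
    apply (h.orbA (N + p)).eq_of_digits (h.orbA N)
    · intro k
      have := congrArg Prod.snd (hd' k)
      simp only at this
      rw [← orb_add, ← orb_add, show N + p + k = N + k + p by ring]
      exact this
    · intro k
      have := congrArg Prod.fst (hd' k)
      simp only at this
      rw [← orb_add, ← orb_add, show N + p + k = N + k + p by ring]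
      exact this
  · rintro ⟨N, p, hp, he⟩
    refine ⟨N, p, hp, fun n hn => ?_⟩
    rw [digits_eq, digits_eq, KPer.shift he n hn]

theorem orb_injective {σ : K →+* ℝ} {q : K × K} (h : ¬ KPer σ q) :
    Function.Injective (orb σ q) := by
  intro i j hij
  by_contra hne
  rcases lt_or_gt_of_ne hne with hlt | hlt
  · apply h
    refine ⟨i, j - i, by omega, ?_⟩
    rw [show i + (j - i) = j by omega]
    exact hij.symm
  · apply h
    refine ⟨j, i - j, by omega, ?_⟩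
    rw [show j + (i - j) = i by omega]
    exact hij

end general

section field

variable {K : Type*} [Field K] [NumberField K]

/-- A common denominator. -/
theorem exists_denominator (y z : K) :
    ∃ G : K, G ≠ 0 ∧ IsIntegral ℤ G ∧ IsIntegral ℤ (G * y) ∧ IsIntegral ℤ (G * z) := by
  have halg : ∀ x : K, IsAlgebraic ℤ x := by
    intro x
    have h1 : IsAlgebraic ℚ x := Algebra.IsAlgebraic.isAlgebraic x
    exact (IsFractionRing.isAlgebraic_iff ℤ ℚ K).2 h1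
  obtain ⟨m, hm0, hm⟩ := (halg y).exists_integral_multiple
  obtain ⟨n, hn0, hn⟩ := (halg z).exists_integral_multiple
  have im : IsIntegral ℤ ((m : ℤ) : K) := by
    simpa using isIntegral_algebraMap (R := ℤ) (A := K) (x := m)
  have iN : IsIntegral ℤ ((n : ℤ) : K) := by
    simpa using isIntegral_algebraMap (R := ℤ) (A := K) (x := n)
  rw [zsmul_eq_mul] at hm hn
  refine ⟨(m : K) * (n : K), ?_, im.mul iN, ?_, ?_⟩
  · exact mul_ne_zero (by exact_mod_cast hm0) (by exact_mod_cast hn0)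
  · have : (m : K) * (n : K) * y = (n : K) * ((m : K) * y) := by ring
    rw [this]; exact iN.mul hm
  · rw [mul_assoc]; exact im.mul hn

omit [NumberField K] in
theorem Adm.integral {σ : K →+* ℝ} {q : K × K} (h : Adm σ q) {G : K} (hG : IsIntegral ℤ G)
    (hy : IsIntegral ℤ (G * q.1)) (hz : IsIntegral ℤ (G * q.2)) (k : ℕ) :
    IsIntegral ℤ (G * gg σ q k) ∧ IsIntegral ℤ (G * gg σ q (k + 1)) ∧
      IsIntegral ℤ (G * hh σ q k) := by
  induction k with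
  | zero =>
    rw [gg_succ, hh, gg_zero, orb_zero]
    simp only [mul_one, one_mul]
    exact ⟨hG, hy, hz⟩
  | succ n ih =>
    obtain ⟨i0, i1, i2⟩ := ih
    have iint : ∀ m : ℤ, IsIntegral ℤ ((m : ℤ) : K) := by
      intro m
      simpa using isIntegral_algebraMap (R := ℤ) (A := K) (x := m)
    refine ⟨i1, ?_, ?_⟩
    · have e : G * gg σ q (n + 1 + 1)
          = G * hh σ q n - (dB σ (orb σ q n) : K) * (G * gg σ q (n + 1)) := by
        rw [show n + 1 + 1 = n + 2 from rfl, h.gg_two n]; ring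
      rw [e]
      exact i2.sub ((iint _).mul i1)
    · have e : G * hh σ q (n + 1)
          = G * gg σ q n - (dA σ (orb σ q n) : K) * (G * gg σ q (n + 1)) := by
        rw [h.hh_succ n]; ring
      rw [e]
      exact i0.sub ((iint _).mul i1)

/-- The bounds of the sign lemma give reducedness, with a constant depending only on the
determinant of `(G, G y, G z)`. -/
theorem Conj.red_of_bounds {σ τ₁ τ₂ : K →+* ℝ} (hc : Conj σ τ₁ τ₂) {q : K × K} (h : Adm σ q)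
    {G : K} (hG0 : G ≠ 0) (hG : IsIntegral ℤ G)
    (hy : IsIntegral ℤ (G * q.1)) (hz : IsIntegral ℤ (G * q.2)) {B : ℝ}
    (hB : |((Algebra.norm ℚ G : ℚ) : ℝ)| * |DD σ τ₁ τ₂ q| ≤ B) {k : ℕ}
    (b2 : σ (gg σ q k) * |XX σ τ₁ τ₂ q (k + 2)| ≤ |DD σ τ₁ τ₂ q|)
    (b0 : |XX σ τ₁ τ₂ q k| ≤ |XX σ τ₁ τ₂ q (k + 1)|)
    (b1 : |XX σ τ₁ τ₂ q (k + 1)| ≤ |XX σ τ₁ τ₂ q (k + 2)|) : Red σ τ₁ τ₂ B (orb σ q k) := by
  have hk := h.orbA k
  obtain ⟨i0, i1, i2⟩ := h.integral hG hy hz k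
  have hg := h.σgg_pos k
  have e : |((Algebra.norm ℚ (G * gg σ q k) : ℚ) : ℝ)|
      = |((Algebra.norm ℚ G : ℚ) : ℝ)| * (σ (gg σ q k) * |τ₁ (gg σ q k) * τ₂ (gg σ q k)|) := by
    rw [map_mul]
    push_cast
    rw [hc.norm (gg σ q k), abs_mul, mul_assoc (σ (gg σ q k)), abs_mul (σ (gg σ q k)), abs_of_pos hg]
  have key : ∀ X W : ℝ, X = τ₁ (gg σ q k) * τ₂ (gg σ q k) * W →
      |X| ≤ |XX σ τ₁ τ₂ q (k + 2)| →
      |W| * |((Algebra.norm ℚ (G * gg σ q k) : ℚ) : ℝ)| ≤ B := by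
    intro X W hX hXle
    rw [e]
    have e1 : |W| * (|((Algebra.norm ℚ G : ℚ) : ℝ)| *
        (σ (gg σ q k) * |τ₁ (gg σ q k) * τ₂ (gg σ q k)|))
        = |((Algebra.norm ℚ G : ℚ) : ℝ)| * (σ (gg σ q k) * |X|) := by
      have e2 : |X| = |τ₁ (gg σ q k) * τ₂ (gg σ q k)| * |W| := by rw [hX, abs_mul]
      rw [e2]; ring
    rw [e1]
    refine le_trans ?_ hB
    apply mul_le_mul_of_nonneg_left _ (abs_nonneg _)
    exact le_trans (mul_le_mul_of_nonneg_left hXle hg.le) b2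
  refine ⟨hk.y0, hk.y1, hk.z0, hk.z1, G * gg σ q k, mul_ne_zero hG0 (h.gg_ne k), i0, ?_, ?_,
    ?_, ?_, ?_⟩
  · rw [gg_succ, ← mul_assoc] at i1; exact i1
  · rw [hh, ← mul_assoc] at i2; exact i2
  · apply key (XX σ τ₁ τ₂ q (k + 2)) _ _ le_rfl
    rw [h.XX_two τ₁ τ₂ k, gg_succ, hh]
    simp only [map_mul]; ring
  · apply key (XX σ τ₁ τ₂ q k) _ _ (le_trans b0 b1)
    rw [XX, hh]
    simp only [map_mul]; ring
  · apply key (XX σ τ₁ τ₂ q (k + 1)) _ _ b1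
    rw [h.XX_one τ₁ τ₂ k, gg_succ]
    simp only [map_mul]; ring

/-- Along an orbit all late points are reduced with the same constant. -/
theorem Conj.exists_red {σ τ₁ τ₂ : K →+* ℝ} (hc : Conj σ τ₁ τ₂) {q : K × K} (h : Adm σ q) :
    ∃ B : ℝ, 0 < B ∧ ∃ j, ∀ k, j ≤ k → Red σ τ₁ τ₂ B (orb σ q k) := by
  obtain ⟨G, hG0, hG, hy, hz⟩ := exists_denominator q.1 q.2
  have hD := hc.DD_ne h.ind
  obtain ⟨j, hj⟩ := h.eventually_bound hD
  refine ⟨|((Algebra.norm ℚ G : ℚ) : ℝ)| * |DD σ τ₁ τ₂ q| + 1, by positivity, j, fun k hk => ?_⟩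
  obtain ⟨b2, b0, b1⟩ := hj k hk
  exact hc.red_of_bounds h hG0 hG hy hz (by linarith) b2 b0 b1

/-- **Main convergence statement.** -/
theorem Conj.eventually_close {σ τ₁ τ₂ : K →+* ℝ} (hc : Conj σ τ₁ τ₂) {q : K × K} (h : Adm σ q)
    (hnp : ¬ KPer σ q) {c₀ c₁ c₂ : ℤ} (hcc : ¬ (c₀ = 0 ∧ c₁ = 0 ∧ c₂ = 0)) {ε : ℝ} (hε : 0 < ε) :
    ∀ᶠ k in atTop, |τ₁ (lin c₀ c₁ c₂ (orb σ q k)) - τ₂ (lin c₀ c₁ c₂ (orb σ q k))|
      < ε * |τ₂ (lin c₀ c₁ c₂ (orb σ q k))| := by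
  obtain ⟨B, hB, j, hj⟩ := hc.exists_red h
  have hfin := Red.finite hc hB hε c₀ c₁ c₂
  have hfin2 := hfin.preimage (f := orb σ q) (orb_injective hnp).injOn
  obtain ⟨M, hM⟩ := hfin2.bddAbove
  rw [eventually_atTop]
  refine ⟨max j (M + 1), fun k hk => ?_⟩
  by_contra hcon
  push Not at hcon
  have hmem : k ∈ (orb σ q) ⁻¹' {q : K × K | Red σ τ₁ τ₂ B q ∧ lin c₀ c₁ c₂ q ≠ 0 ∧
      ε * |τ₂ (lin c₀ c₁ c₂ q)| ≤ |τ₁ (lin c₀ c₁ c₂ q) - τ₂ (lin c₀ c₁ c₂ q)|} :=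
    ⟨hj k (le_trans (le_max_left _ _) hk), (h.orbA k).ind.lin_ne hcc, hcon⟩
  have h1 := hM hmem
  have h2 := le_trans (le_max_right _ _) hk
  omega

theorem Conj.tendsto_one {σ τ₁ τ₂ : K →+* ℝ} (hc : Conj σ τ₁ τ₂) {q : K × K} (h : Adm σ q)
    (hnp : ¬ KPer σ q) {c₀ c₁ c₂ : ℤ} (hcc : ¬ (c₀ = 0 ∧ c₁ = 0 ∧ c₂ = 0)) :
    Tendsto (fun k => τ₁ (lin c₀ c₁ c₂ (orb σ q k)) / τ₂ (lin c₀ c₁ c₂ (orb σ q k))) atTop
      (𝓝 1) := by
  rw [Metric.tendsto_nhds]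
  intro ε hε
  filter_upwards [hc.eventually_close h hnp hcc hε] with k hk
  have hne : τ₂ (lin c₀ c₁ c₂ (orb σ q k)) ≠ 0 := by
    rw [Ne, map_eq_zero]; exact (h.orbA k).ind.lin_ne hcc
  rw [Real.dist_eq]
  have e : τ₁ (lin c₀ c₁ c₂ (orb σ q k)) / τ₂ (lin c₀ c₁ c₂ (orb σ q k)) - 1
      = (τ₁ (lin c₀ c₁ c₂ (orb σ q k)) - τ₂ (lin c₀ c₁ c₂ (orb σ q k))) /
        τ₂ (lin c₀ c₁ c₂ (orb σ q k)) := by
    field_simp
  rw [e, abs_div, div_lt_iff₀ (abs_pos.2 hne)]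
  exact hk

omit [NumberField K] in
theorem Ind.not_rat {q : K × K} [CharZero K] (h : Ind q) {c₀ c₁ c₂ : ℤ}
    (hcc : ¬ (c₁ = 0 ∧ c₂ = 0)) (r : ℚ) : lin c₀ c₁ c₂ q ≠ (r : K) := by
  intro e
  apply hcc
  have hden : (r.den : K) ≠ 0 := by exact_mod_cast r.den_ne_zero
  have h1 : (((c₀ * r.den - r.num : ℤ)) : K) + ((c₁ * r.den : ℤ) : K) * q.1
      + ((c₂ * r.den : ℤ) : K) * q.2 = 0 := by
    have h2 : (r : K) = (r.num : K) / (r.den : K) := Rat.cast_def r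
    rw [lin, h2, eq_div_iff hden] at e
    push_cast
    linear_combination e
  obtain ⟨-, e1, e2⟩ := h _ _ _ h1
  have hd : (r.den : ℤ) ≠ 0 := by exact_mod_cast r.den_ne_zero
  exact ⟨(mul_eq_zero.1 e1).resolve_right hd, (mul_eq_zero.1 e2).resolve_right hd⟩

/-- In the periodic case the quotient does not tend to `1`. -/
theorem Conj.not_tendsto {σ τ₁ τ₂ : K →+* ℝ} (hc : Conj σ τ₁ τ₂) {q : K × K} (h : Adm σ q)
    (hp : KPer σ q) {c₀ c₁ c₂ : ℤ} (hcc : ¬ (c₁ = 0 ∧ c₂ = 0)) :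
    ¬ Tendsto (fun k => τ₁ (lin c₀ c₁ c₂ (orb σ q k)) / τ₂ (lin c₀ c₁ c₂ (orb σ q k))) atTop
      (𝓝 1) := by
  obtain ⟨N, p, hp0, he⟩ := hp
  intro ht
  have hsub : Tendsto (fun j : ℕ => N + j * p) atTop atTop := by
    apply tendsto_atTop_mono (f := fun j : ℕ => j)
    · intro j
      show j ≤ N + j * p
      nlinarith
    · exact tendsto_id
  have h1 := ht.comp hsub
  have h2 : ((fun k => τ₁ (lin c₀ c₁ c₂ (orb σ q k)) / τ₂ (lin c₀ c₁ c₂ (orb σ q k))) ∘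
      fun j : ℕ => N + j * p) = fun _ => τ₁ (lin c₀ c₁ c₂ (orb σ q N)) /
        τ₂ (lin c₀ c₁ c₂ (orb σ q N)) := by
    funext j
    simp only [Function.comp]
    rw [KPer.mul he N le_rfl j]
  rw [h2] at h1
  have h3 : τ₁ (lin c₀ c₁ c₂ (orb σ q N)) / τ₂ (lin c₀ c₁ c₂ (orb σ q N)) = 1 :=
    tendsto_nhds_unique tendsto_const_nhds h1
  have hcc' : ¬ (c₀ = 0 ∧ c₁ = 0 ∧ c₂ = 0) := fun hh => hcc ⟨hh.2.1, hh.2.2⟩
  have hne : τ₂ (lin c₀ c₁ c₂ (orb σ q N)) ≠ 0 := by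
    rw [Ne, map_eq_zero]; exact (h.orbA N).ind.lin_ne hcc'
  rw [div_eq_one_iff_eq hne] at h3
  obtain ⟨r, hr⟩ := rat_of_eq hc.deg hc.h12 h3
  exact (h.orbA N).ind.not_rat hcc r hr

/-- In the periodic case some integer form separates the two conjugates infinitely often. -/
theorem Conj.exists_sep {σ τ₁ τ₂ : K →+* ℝ} (hc : Conj σ τ₁ τ₂) {q : K × K} (h : Adm σ q)
    (hp : KPer σ q) : ∃ c₀ c₁ c₂ : ℤ, ∃ᶠ k in atTop,
      τ₁ (lin c₀ c₁ c₂ (orb σ q k)) * τ₂ (lin c₀ c₁ c₂ (orb σ q k)) < 0 := by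
  obtain ⟨N, p, hp0, he⟩ := hp
  have hne : τ₁ (orb σ q N).1 ≠ τ₂ (orb σ q N).1 := by
    intro e
    obtain ⟨r, hr⟩ := rat_of_eq hc.deg hc.h12 e
    refine (h.orbA N).ind.not_rat (c₀ := 0) (c₁ := 1) (c₂ := 0) (by simp) r ?_
    rw [lin, ← hr]; simp
  obtain ⟨r, hr⟩ : ∃ r : ℚ, ((τ₁ (orb σ q N).1 - r) * (τ₂ (orb σ q N).1 - r) : ℝ) < 0 := by
    rcases lt_or_gt_of_ne hne with hlt | hlt
    · obtain ⟨r, h1, h2⟩ := exists_rat_btwn hlt
      exact ⟨r, mul_neg_of_neg_of_pos (by linarith) (by linarith)⟩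
    · obtain ⟨r, h1, h2⟩ := exists_rat_btwn hlt
      exact ⟨r, mul_neg_of_pos_of_neg (by linarith) (by linarith)⟩
  refine ⟨-r.num, r.den, 0, ?_⟩
  rw [frequently_atTop]
  intro M
  refine ⟨N + M * p, by nlinarith, ?_⟩
  rw [KPer.mul he N le_rfl M, map_lin, map_lin]
  have hden : (0 : ℝ) < r.den := by exact_mod_cast r.den_pos
  have hr2 : (r : ℝ) = (r.num : ℝ) / (r.den : ℝ) := Rat.cast_def r
  have e : ∀ t : ℝ, ((-r.num : ℤ) : ℝ) + (((r.den : ℕ) : ℤ) : ℝ) * t + ((0 : ℤ) : ℝ) * 0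
      = r.den * (t - r) := by
    intro t
    rw [hr2]
    push_cast
    field_simp
    ring
  have e1 : ((-r.num : ℤ) : ℝ) + (((r.den : ℕ) : ℤ) : ℝ) * τ₁ (orb σ q N).1 +
      ((0 : ℤ) : ℝ) * τ₁ (orb σ q N).2 = r.den * (τ₁ (orb σ q N).1 - r) := by
    rw [← e]; simp
  have e2 : ((-r.num : ℤ) : ℝ) + (((r.den : ℕ) : ℤ) : ℝ) * τ₂ (orb σ q N).1 +
      ((0 : ℤ) : ℝ) * τ₂ (orb σ q N).2 = r.den * (τ₂ (orb σ q N).1 - r) := by
    rw [← e]; simp
  rw [e1, e2]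
  have e3 : (r.den : ℝ) * (τ₁ (orb σ q N).1 - r) * (r.den * (τ₂ (orb σ q N).1 - r))
      = (r.den * r.den) * ((τ₁ (orb σ q N).1 - r) * (τ₂ (orb σ q N).1 - r)) := by ring
  rw [e3]
  exact mul_neg_of_pos_of_neg (by positivity) hr

end field

end Pool.Agent.helper960_jp
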