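import Pool.Agent.helper960_jp.Recur
import Pool.Agent.helper960_jp.Fin

/-!
# The `K`-valued Jacobi-Perron orbit
-/

set_option autoImplicit false

namespace Pool.Agent.helper960_jp

open NumberField Filter Topology

section general

variable {K : Type*} [Field K]

/-- One Jacobi-Perron step for a pair `(y, z)` of elements of `K`, the integer parts being taken
in the real embedding `σ`. -/
noncomputable def step (σ : K →+* ℝ) (q : K × K) : K × K :=
  (q.2 / q.1 - ((⌊σ (q.2 / q.1)⌋ : ℤ) : K), 1 / q.1 - ((⌊σ (1 / q.1)⌋ : ℤ) : K))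

/-- The orbit of `q` under `step σ`. -/
noncomputable def orb (σ : K →+* ℝ) (q : K × K) (k : ℕ) : K × K := (step σ)^[k] q

/-- Integer independence of `1, y, z`. -/
def Ind (q : K × K) : Prop :=
  ∀ c₀ c₁ c₂ : ℤ, (c₀ : K) + (c₁ : K) * q.1 + (c₂ : K) * q.2 = 0 → c₀ = 0 ∧ c₁ = 0 ∧ c₂ = 0

/-- The admissible starting pairs. -/
structure Adm (σ : K →+* ℝ) (q : K × K) : Prop where
  y0 : 0 < σ q.1
  y1 : σ q.1 < 1
  z0 : 0 < σ q.2
  z1 : σ q.2 < 1
  ind : Ind q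

theorem orb_zero (σ : K →+* ℝ) (q : K × K) : orb σ q 0 = q := rfl

theorem orb_succ (σ : K →+* ℝ) (q : K × K) (k : ℕ) : orb σ q (k + 1) = step σ (orb σ q k) :=
  Function.iterate_succ_apply' _ _ _

theorem orb_add (σ : K →+* ℝ) (q : K × K) (k l : ℕ) : orb σ q (k + l) = orb σ (orb σ q k) l := by
  rw [orb, orb, orb, add_comm k l, Function.iterate_add_apply]

theorem Adm.stepA {σ : K →+* ℝ} {q : K × K} (h : Adm σ q) : Adm σ (step σ q) := by
  have hy : q.1 ≠ 0 := by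
    intro e
    have := h.y0
    rw [e, map_zero] at this
    exact lt_irrefl _ this
  have hind : Ind (step σ q) := by
    intro c₀ c₁ c₂ hc
    simp only [step] at hc
    set b : ℤ := ⌊σ (q.2 / q.1)⌋ with hb
    set a : ℤ := ⌊σ (1 / q.1)⌋ with ha
    have h1 : ((c₂ : ℤ) : K) + ((c₀ - c₁ * b - c₂ * a : ℤ) : K) * q.1 + ((c₁ : ℤ) : K) * q.2 = 0 := by
      have h2 : ((c₀ : K) + (c₁ : K) * (q.2 / q.1 - (b : K)) + (c₂ : K) * (1 / q.1 - (a : K))) * q.1
          = 0 := by rw [hc, zero_mul]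
      have h3 : ((c₀ : K) + (c₁ : K) * (q.2 / q.1 - (b : K)) + (c₂ : K) * (1 / q.1 - (a : K))) * q.1
          = (c₂ : K) + ((c₀ : K) - c₁ * b - c₂ * a) * q.1 + (c₁ : K) * q.2 := by
        field_simp
        ring
      rw [h3] at h2
      push_cast
      exact h2
    obtain ⟨e2, e0, e1⟩ := h.ind _ _ _ h1
    refine ⟨?_, e1, e2⟩
    rw [e1, e2] at e0
    simpa using e0
  have ne1 : (step σ q).1 ≠ 0 := by
    intro e
    have := hind 0 1 0 (by rw [e]; simp)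
    exact absurd this.2.1 one_ne_zero
  have ne2 : (step σ q).2 ≠ 0 := by
    intro e
    have := hind 0 0 1 (by rw [e]; simp)
    exact absurd this.2.2 one_ne_zero
  have s1 : σ (step σ q).1 = Int.fract (σ (q.2 / q.1)) := by
    simp only [step, map_sub, map_intCast, Int.fract]
  have s2 : σ (step σ q).2 = Int.fract (σ (1 / q.1)) := by
    simp only [step, map_sub, map_intCast, Int.fract]
  have n1 : σ (step σ q).1 ≠ 0 := by
    rw [Ne, map_eq_zero]; exact ne1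
  have n2 : σ (step σ q).2 ≠ 0 := by
    rw [Ne, map_eq_zero]; exact ne2
  refine ⟨?_, ?_, ?_, ?_, hind⟩
  · exact lt_of_le_of_ne (by rw [s1]; exact Int.fract_nonneg _) (Ne.symm n1)
  · rw [s1]; exact Int.fract_lt_one _
  · exact lt_of_le_of_ne (by rw [s2]; exact Int.fract_nonneg _) (Ne.symm n2)
  · rw [s2]; exact Int.fract_lt_one _

theorem Adm.orbA {σ : K →+* ℝ} {q : K × K} (h : Adm σ q) (k : ℕ) : Adm σ (orb σ q k) := by
  induction k with
  | zero => exact h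
  | succ n ih => rw [orb_succ]; exact ih.stepA

theorem Adm.ne {σ : K →+* ℝ} {q : K × K} (h : Adm σ q) : q.1 ≠ 0 := by
  intro e
  have := h.y0
  rw [e, map_zero] at this
  exact lt_irrefl _ this

/-- Digit `a`. -/
noncomputable def dA (σ : K →+* ℝ) (q : K × K) : ℤ := ⌊σ (1 / q.1)⌋

/-- Digit `b`. -/
noncomputable def dB (σ : K →+* ℝ) (q : K × K) : ℤ := ⌊σ (q.2 / q.1)⌋

theorem Adm.a_pos {σ : K →+* ℝ} {q : K × K} (h : Adm σ q) : 1 ≤ dA σ q := by
  rw [dA, Int.le_floor]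
  rw [map_div₀, map_one, Int.cast_one, le_div_iff₀ h.y0]
  linarith [h.y1]

theorem Adm.b_nonneg {σ : K →+* ℝ} {q : K × K} (h : Adm σ q) : 0 ≤ dB σ q := by
  rw [dB, Int.le_floor]
  rw [map_div₀, Int.cast_zero]
  exact (div_pos h.z0 h.y0).le

theorem Adm.b_le_a {σ : K →+* ℝ} {q : K × K} (h : Adm σ q) : dB σ q ≤ dA σ q := by
  rw [dB, dA]
  apply Int.floor_le_floor
  rw [map_div₀, map_div₀, map_one]
  exact div_le_div_of_nonneg_right h.z1.le h.y0.le

/-- The product `y₀ y₁ ⋯ y_{k-1}`. -/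
noncomputable def gg (σ : K →+* ℝ) (q : K × K) (k : ℕ) : K := ∏ j ∈ Finset.range k, (orb σ q j).1

theorem gg_zero (σ : K →+* ℝ) (q : K × K) : gg σ q 0 = 1 := by simp [gg]

theorem gg_succ (σ : K →+* ℝ) (q : K × K) (k : ℕ) :
    gg σ q (k + 1) = gg σ q k * (orb σ q k).1 := by
  rw [gg, gg, Finset.prod_range_succ]

theorem gg_add (σ : K →+* ℝ) (q : K × K) (k l : ℕ) :
    gg σ q (k + l) = gg σ q k * gg σ (orb σ q k) l := by
  induction l with
  | zero => simp [gg_zero]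
  | succ n ih =>
    rw [← add_assoc, gg_succ, ih, gg_succ, orb_add, mul_assoc]

/-- `y₀ ⋯ y_{k-1} z_k`. -/
noncomputable def hh (σ : K →+* ℝ) (q : K × K) (k : ℕ) : K := gg σ q k * (orb σ q k).2

theorem Adm.gg_ne {σ : K →+* ℝ} {q : K × K} (h : Adm σ q) (k : ℕ) : gg σ q k ≠ 0 := by
  rw [gg]
  exact Finset.prod_ne_zero_iff.2 fun j _ => (h.orbA j).ne

theorem Adm.gg_two {σ : K →+* ℝ} {q : K × K} (h : Adm σ q) (k : ℕ) :
    gg σ q (k + 2) = hh σ q k - (dB σ (orb σ q k) : K) * gg σ q (k + 1) := by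
  have hne := (h.orbA k).ne
  rw [gg_succ σ q (k + 1), orb_succ, gg_succ σ q k, hh]
  show gg σ q k * (orb σ q k).1 * ((orb σ q k).2 / (orb σ q k).1 - (dB σ (orb σ q k) : K)) = _
  field_simp

theorem Adm.hh_succ {σ : K →+* ℝ} {q : K × K} (h : Adm σ q) (k : ℕ) :
    hh σ q (k + 1) = gg σ q k - (dA σ (orb σ q k) : K) * gg σ q (k + 1) := by
  have hne := (h.orbA k).ne
  rw [hh, gg_succ σ q k, orb_succ]
  show gg σ q k * (orb σ q k).1 * (1 / (orb σ q k).1 - (dA σ (orb σ q k) : K)) = _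
  field_simp

theorem Adm.σgg_pos {σ : K →+* ℝ} {q : K × K} (h : Adm σ q) (k : ℕ) : 0 < σ (gg σ q k) := by
  rw [gg, map_prod]
  exact Finset.prod_pos fun j _ => (h.orbA j).y0

/-- The sequences of the algorithm in the embedding `σ`. -/
theorem Adm.wt {σ : K →+* ℝ} {q : K × K} (h : Adm σ q) :
    Wt (fun k => (dA σ (orb σ q k) : ℝ)) (fun k => (dB σ (orb σ q k) : ℝ))
      (fun k => σ (gg σ q k)) (fun k => σ (gg σ q (k + 1))) (fun k => σ (hh σ q k)) where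
  hp := h.σgg_pos
  hq := fun k => h.σgg_pos (k + 1)
  hr := fun k => by
    show 0 < σ (hh σ q k)
    rw [hh, map_mul]
    exact mul_pos (h.σgg_pos k) (h.orbA k).z0
  hqp := fun k => by
    show σ (gg σ q (k + 1)) ≤ σ (gg σ q k)
    rw [gg_succ, map_mul]
    have h1 := h.σgg_pos k
    have h2 := (h.orbA k).y1
    nlinarith
  hrp := fun k => by
    show σ (hh σ q k) ≤ σ (gg σ q k)
    rw [hh, map_mul]
    have h1 := h.σgg_pos k
    have h2 := (h.orbA k).z1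
    nlinarith
  ep := fun k => rfl
  eq := fun k => by
    show σ (gg σ q (k + 2)) = _
    rw [h.gg_two k, map_sub, map_mul, map_intCast]
  er := fun k => by
    show σ (hh σ q (k + 1)) = _
    rw [h.hh_succ k, map_sub, map_mul, map_intCast]

theorem Adm.ha {σ : K →+* ℝ} {q : K × K} (h : Adm σ q) (k : ℕ) :
    (1 : ℝ) ≤ (dA σ (orb σ q k) : ℝ) := by
  exact_mod_cast (h.orbA k).a_pos

theorem Adm.hb {σ : K →+* ℝ} {q : K × K} (h : Adm σ q) (k : ℕ) :
    (0 : ℝ) ≤ (dB σ (orb σ q k) : ℝ) := by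
  exact_mod_cast (h.orbA k).b_nonneg

theorem Adm.hab {σ : K →+* ℝ} {q : K × K} (h : Adm σ q) (k : ℕ) :
    (dB σ (orb σ q k) : ℝ) ≤ (dA σ (orb σ q k) : ℝ) := by
  exact_mod_cast (h.orbA k).b_le_a

/-- The dual sequence. -/
noncomputable def XX (σ τ₁ τ₂ : K →+* ℝ) (q : K × K) (k : ℕ) : ℝ :=
  τ₁ (hh σ q k) * τ₂ (gg σ q k) - τ₁ (gg σ q k) * τ₂ (hh σ q k)

theorem Adm.XX_one {σ : K →+* ℝ} (τ₁ τ₂ : K →+* ℝ) {q : K × K} (h : Adm σ q) (k : ℕ) :
    XX σ τ₁ τ₂ q (k + 1) = τ₁ (gg σ q k) * τ₂ (gg σ q (k + 1)) -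
      τ₁ (gg σ q (k + 1)) * τ₂ (gg σ q k) := by
  rw [XX, h.hh_succ k]
  simp only [map_sub, map_mul, map_intCast]
  ring

theorem Adm.XX_two {σ : K →+* ℝ} (τ₁ τ₂ : K →+* ℝ) {q : K × K} (h : Adm σ q) (k : ℕ) :
    XX σ τ₁ τ₂ q (k + 2) = τ₁ (gg σ q (k + 1)) * τ₂ (hh σ q k) -
      τ₁ (hh σ q k) * τ₂ (gg σ q (k + 1)) := by
  have e := h.XX_one τ₁ τ₂ (k + 1)
  have e2 : XX σ τ₁ τ₂ q (k + 1 + 1) = XX σ τ₁ τ₂ q (k + 2) := rfl
  rw [← e2, e]
  have e3 : gg σ q (k + 1 + 1) = hh σ q k - (dB σ (orb σ q k) : K) * gg σ q (k + 1) := h.gg_two k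
  rw [e3]
  simp only [map_sub, map_mul, map_intCast]
  ring

theorem Adm.recX {σ : K →+* ℝ} (τ₁ τ₂ : K →+* ℝ) {q : K × K} (h : Adm σ q) :
    Rec (fun k => (dA σ (orb σ q k) : ℝ)) (fun k => (dB σ (orb σ q k) : ℝ)) (XX σ τ₁ τ₂ q) where
  ha := h.ha
  hb := h.hb
  hab := h.hab
  hrec := fun k => by
    have e := h.XX_two τ₁ τ₂ (k + 1)
    have e2 : XX σ τ₁ τ₂ q (k + 1 + 2) = XX σ τ₁ τ₂ q (k + 3) := rfl
    rw [← e2, e, h.XX_two τ₁ τ₂ k, h.XX_one τ₁ τ₂ k, XX]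
    have e3 : gg σ q (k + 1 + 1) = hh σ q k - (dB σ (orb σ q k) : K) * gg σ q (k + 1) := h.gg_two k
    rw [e3, h.hh_succ k]
    simp only [map_sub, map_mul, map_intCast]
    ring

/-- The conserved quantity. -/
noncomputable def DD (σ τ₁ τ₂ : K →+* ℝ) (q : K × K) : ℝ :=
  (τ₁ q.1 * τ₂ q.2 - τ₁ q.2 * τ₂ q.1) + σ q.1 * (τ₁ q.2 - τ₂ q.2) + σ q.2 * (τ₂ q.1 - τ₁ q.1)

theorem Adm.DD_eq {σ : K →+* ℝ} (τ₁ τ₂ : K →+* ℝ) {q : K × K} (h : Adm σ q) :
    σ (gg σ q 0) * XX σ τ₁ τ₂ q 2 + σ (gg σ q (0 + 1)) * XX σ τ₁ τ₂ q 0 +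
      σ (hh σ q 0) * XX σ τ₁ τ₂ q 1 = DD σ τ₁ τ₂ q := by
  have e0 : XX σ τ₁ τ₂ q 0 = τ₁ q.2 - τ₂ q.2 := by
    rw [XX, hh, gg_zero, orb_zero]
    simp
  have e1 : XX σ τ₁ τ₂ q 1 = τ₂ q.1 - τ₁ q.1 := by
    have := h.XX_one τ₁ τ₂ 0
    rw [gg_zero] at this
    rw [show (1 : ℕ) = 0 + 1 from rfl, this, gg_succ, gg_zero, orb_zero]
    simp
  have e2 : XX σ τ₁ τ₂ q 2 = τ₁ q.1 * τ₂ q.2 - τ₁ q.2 * τ₂ q.1 := by
    have := h.XX_two τ₁ τ₂ 0
    rw [show (2 : ℕ) = 0 + 2 from rfl, this, gg_succ, hh, gg_zero, orb_zero]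
    simp
  rw [e0, e1, e2, gg_succ, hh, gg_zero, orb_zero, DD]
  simp

/-- The conserved quantity bounds all later terms. -/
theorem Adm.eventually_bound {σ : K →+* ℝ} {τ₁ τ₂ : K →+* ℝ} {q : K × K} (h : Adm σ q)
    (hD : DD σ τ₁ τ₂ q ≠ 0) :
    ∃ j, ∀ k, j ≤ k → σ (gg σ q k) * |XX σ τ₁ τ₂ q (k + 2)| ≤ |DD σ τ₁ τ₂ q| ∧
      |XX σ τ₁ τ₂ q k| ≤ |XX σ τ₁ τ₂ q (k + 1)| ∧
      |XX σ τ₁ τ₂ q (k + 1)| ≤ |XX σ τ₁ τ₂ q (k + 2)| := by
  have hX := h.recX τ₁ τ₂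
  have hw := h.wt
  have hinv : ∀ k, σ (gg σ q k) * XX σ τ₁ τ₂ q (k + 2) + σ (gg σ q (k + 1)) * XX σ τ₁ τ₂ q k +
      σ (hh σ q k) * XX σ τ₁ τ₂ q (k + 1) = DD σ τ₁ τ₂ q := by
    intro k
    rw [← h.DD_eq τ₁ τ₂]
    exact hw.inv hX k
  rcases lt_or_gt_of_ne hD with hneg | hpos
  · have hD' : 0 < σ (gg σ q 0) * (fun k => - XX σ τ₁ τ₂ q k) 2 +
        σ (gg σ q (0 + 1)) * (fun k => - XX σ τ₁ τ₂ q k) 0 +
        σ (hh σ q 0) * (fun k => - XX σ τ₁ τ₂ q k) 1 := by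
      have := h.DD_eq τ₁ τ₂
      simp only
      linarith
    obtain ⟨j, hj⟩ := hw.eventually_nonneg hX.neg hD'
    refine ⟨j, fun k hk => ?_⟩
    obtain ⟨n0, m0⟩ := hj k hk
    obtain ⟨n1, m1⟩ := hj (k + 1) (by omega)
    obtain ⟨n2, -⟩ := hj (k + 2) (by omega)
    have m1' : - XX σ τ₁ τ₂ q (k + 1) ≤ - XX σ τ₁ τ₂ q (k + 2) := m1
    have t1 := mul_nonneg (h.σgg_pos (k + 1)).le n0
    have t2 := mul_nonneg (hw.hr k).le n1
    have t3 := hinv k
    rw [abs_of_nonpos (by linarith : XX σ τ₁ τ₂ q k ≤ 0),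
      abs_of_nonpos (by linarith : XX σ τ₁ τ₂ q (k + 1) ≤ 0),
      abs_of_nonpos (by linarith : XX σ τ₁ τ₂ q (k + 2) ≤ 0), abs_of_neg hneg]
    refine ⟨?_, m0, m1'⟩
    linarith
  · have hD' : 0 < σ (gg σ q 0) * XX σ τ₁ τ₂ q 2 + σ (gg σ q (0 + 1)) * XX σ τ₁ τ₂ q 0 +
        σ (hh σ q 0) * XX σ τ₁ τ₂ q 1 := by
      rw [h.DD_eq τ₁ τ₂]; exact hpos
    obtain ⟨j, hj⟩ := hw.eventually_nonneg hX hD'
    refine ⟨j, fun k hk => ?_⟩
    obtain ⟨n0, m0⟩ := hj k hk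
    obtain ⟨n1, m1⟩ := hj (k + 1) (by omega)
    obtain ⟨n2, -⟩ := hj (k + 2) (by omega)
    have m1' : XX σ τ₁ τ₂ q (k + 1) ≤ XX σ τ₁ τ₂ q (k + 2) := m1
    have t1 := mul_nonneg (h.σgg_pos (k + 1)).le n0
    have t2 := mul_nonneg (hw.hr k).le n1
    have t3 := hinv k
    rw [abs_of_nonneg n0, abs_of_nonneg n1, abs_of_nonneg n2, abs_of_pos hpos]
    refine ⟨?_, m0, m1'⟩
    linarith

/-- Equal digits from two indices on force equal points. -/
theorem Adm.eq_of_digits {σ : K →+* ℝ} {q q' : K × K} (h : Adm σ q) (h' : Adm σ q')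
    (ha : ∀ k, dA σ (orb σ q k) = dA σ (orb σ q' k))
    (hb : ∀ k, dB σ (orb σ q k) = dB σ (orb σ q' k)) : q = q' := by
  have hw := h.wt
  have hw' := h'.wt
  have e1 : (fun k => (dA σ (orb σ q' k) : ℝ)) = (fun k => (dA σ (orb σ q k) : ℝ)) := by
    funext k; rw [ha k]
  have e2 : (fun k => (dB σ (orb σ q' k) : ℝ)) = (fun k => (dB σ (orb σ q k) : ℝ)) := by
    funext k; rw [hb k]
  rw [e1, e2] at hw'
  have := Wt.unique h.ha h.hb h.hab hw hw' (by simp [gg_zero]) (by simp [gg_zero])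
  simp only [gg_succ, gg_zero, orb_zero, hh, one_mul] at this
  exact Prod.ext (σ.injective this.1) (σ.injective this.2)

/-- The real Jacobi-Perron map. -/
theorem real_orbit (σ : K →+* ℝ) (q : K × K) (n : ℕ) :
    (fun q : ℝ × ℝ => (Int.fract (q.2 / q.1), Int.fract (1 / q.1)))^[n] (σ q.1, σ q.2)
      = (σ (orb σ q n).1, σ (orb σ q n).2) := by
  induction n with
  | zero => rfl
  | succ n ih =>
    rw [Function.iterate_succ_apply', ih, orb_succ]
    simp only [step, map_sub, map_intCast, map_div₀, map_one, Int.fract]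

theorem Ind.lin_ne {q : K × K} (h : Ind q) {c₀ c₁ c₂ : ℤ} (hc : ¬ (c₀ = 0 ∧ c₁ = 0 ∧ c₂ = 0)) :
    lin c₀ c₁ c₂ q ≠ 0 := fun e => hc (h _ _ _ e)

end general

section field

variable {K : Type*} [Field K] [NumberField K]

theorem ind_of_linearIndependent {y z : K} (h : LinearIndependent ℚ ![(1 : K), y, z]) :
    Ind (y, z) := by
  intro c₀ c₁ c₂ hc
  rw [Fintype.linearIndependent_iff] at h
  have h1 := h ![(c₀ : ℚ), (c₁ : ℚ), (c₂ : ℚ)] (by
    simp only [Fin.sum_univ_three, Matrix.cons_val_zero, Matrix.cons_val_one,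
      Matrix.cons_val]
    simp only [Rat.smul_def, Rat.cast_intCast, mul_one]
    exact hc)
  have e0 := h1 0
  have e1 := h1 1
  have e2 := h1 2
  simp only [Matrix.cons_val_zero, Matrix.cons_val_one, Matrix.cons_val] at e0 e1 e2
  exact ⟨by exact_mod_cast e0, by exact_mod_cast e1, by exact_mod_cast e2⟩

theorem linearIndependent_of_ind {y z : K} (h : Ind (y, z)) :
    LinearIndependent ℚ ![(1 : K), y, z] := by
  rw [← LinearIndependent.iff_fractionRing (R := ℤ) (K := ℚ)]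
  rw [Fintype.linearIndependent_iff]
  intro g hg
  simp only [Fin.sum_univ_three, Matrix.cons_val_zero, Matrix.cons_val_one,
    Matrix.cons_val] at hg
  simp only [zsmul_eq_mul, mul_one] at hg
  obtain ⟨e0, e1, e2⟩ := h _ _ _ hg
  intro i
  fin_cases i
  · exact e0
  · exact e1
  · exact e2

/-- The determinant of an independent triple does not vanish. -/
theorem Conj.DD_ne {σ τ₁ τ₂ : K →+* ℝ} (h : Conj σ τ₁ τ₂) {q : K × K} (hq : Ind q) :
    DD σ τ₁ τ₂ q ≠ 0 := by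
  intro hD
  have hli := linearIndependent_of_ind (y := q.1) (z := q.2) hq
  have hspan : Submodule.span ℚ (Set.range ![(1 : K), q.1, q.2]) = ⊤ :=
    hli.span_eq_top_of_card_eq_finrank (by rw [h.deg]; rfl)
  have hdet : (!![σ 1, σ q.1, σ q.2; τ₁ 1, τ₁ q.1, τ₁ q.2; τ₂ 1, τ₂ q.1, τ₂ q.2] :
      Matrix (Fin 3) (Fin 3) ℝ).det = 0 := by
    rw [Matrix.det_fin_three]
    simp only [Matrix.of_apply, Matrix.cons_val_zero, Matrix.cons_val_one, Matrix.cons_val,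
      map_one]
    rw [DD] at hD
    linarith
  rw [← Matrix.exists_vecMul_eq_zero_iff] at hdet
  obtain ⟨v, hv0, hv⟩ := hdet
  have c0 := congrFun hv 0
  have c1 := congrFun hv 1
  have c2 := congrFun hv 2
  simp only [Matrix.vecMul, dotProduct, Fin.sum_univ_three, Matrix.of_apply, Matrix.cons_val_zero,
    Matrix.cons_val_one, Matrix.cons_val, Pi.zero_apply] at c0 c1 c2
  -- the combination vanishes on all of `K`
  have hall : ∀ x : K, v 0 * σ x + v 1 * τ₁ x + v 2 * τ₂ x = 0 := by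
    intro x
    have hx : x ∈ Submodule.span ℚ (Set.range ![(1 : K), q.1, q.2]) := by rw [hspan]; trivial
    induction hx using Submodule.span_induction with
    | mem x hx =>
      obtain ⟨i, rfl⟩ := hx
      fin_cases i
      · exact c0
      · exact c1
      · exact c2
    | zero => simp
    | add x y _ _ hx hy =>
      simp only [map_add]
      linarith
    | smul r x _ hx =>
      have e : ∀ φ : K →+* ℝ, φ (r • x) = (r : ℝ) * φ x := by
        intro φ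
        rw [Rat.smul_def, map_mul, map_ratCast]
      rw [e, e, e]
      have : v 0 * ((r : ℝ) * σ x) + v 1 * ((r : ℝ) * τ₁ x) + v 2 * ((r : ℝ) * τ₂ x)
          = (r : ℝ) * (v 0 * σ x + v 1 * τ₁ x + v 2 * τ₂ x) := by ring
      rw [this, hx, mul_zero]
  have hded := linearIndependent_monoidHom K ℝ
  have hinj : Function.Injective (![(σ : K →* ℝ), (τ₁ : K →* ℝ), (τ₂ : K →* ℝ)]) := by
    have key : ∀ φ ψ : K →+* ℝ, φ ≠ ψ → (φ : K →* ℝ) ≠ (ψ : K →* ℝ) := by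
      intro φ ψ hne e
      apply hne
      ext x
      exact congrArg (fun f : K →* ℝ => f x) e
    have k01 := key _ _ h.h01
    have k02 := key _ _ h.h02
    have k12 := key _ _ h.h12
    intro i j hij
    fin_cases i <;> fin_cases j <;> first
      | rfl
      | exact absurd hij k01
      | exact absurd hij k02
      | exact absurd hij k12
      | exact absurd hij k01.symm
      | exact absurd hij k02.symm
      | exact absurd hij k12.symm
  have h3 := hded.comp _ hinj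
  rw [Fintype.linearIndependent_iff] at h3
  have h4 := h3 v (by
    funext x
    simp only [Function.comp, Fin.sum_univ_three, Matrix.cons_val_zero, Matrix.cons_val_one,
      Matrix.cons_val, Pi.add_apply, Pi.smul_apply, smul_eq_mul, Pi.zero_apply]
    exact hall x)
  apply hv0
  funext i
  exact h4 i

end field

end Pool.Agent.helper960_jp
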