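import Pool.Agent.helper960_jp.Main

/-!
# Growth rates of the two conjugates
-/

set_option autoImplicit false

namespace Pool.Agent.helper960_jp

open NumberField Filter Topology

section general

variable {K : Type*} [Field K]

theorem Adm.gg_small {σ : K →+* ℝ} {q : K × K} (h : Adm σ q) (n : ℕ) :
    σ (gg σ q n) ≤ (1 / 2) ^ (n / 3) := by
  have h1 := h.wt.bound h.ha h.hb (n / 3)
  have hanti : Antitone (fun k => σ (gg σ q k)) := antitone_nat_of_succ_le h.wt.mono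
  have h2 : σ (gg σ q n) ≤ σ (gg σ q (3 * (n / 3))) := hanti (by omega)
  simp only [gg_zero, map_one, one_mul] at h1
  exact le_trans h2 h1

theorem Adm.log_gg {σ : K →+* ℝ} {q : K × K} (h : Adm σ q) (n : ℕ) :
    ((n / 3 : ℕ) : ℝ) * Real.log 2 ≤ - Real.log (σ (gg σ q n)) := by
  have h1 := Real.log_le_log (h.σgg_pos n) (h.gg_small n)
  rw [Real.log_pow, one_div, Real.log_inv] at h1
  linarith

theorem Adm.log_gg' {σ : K →+* ℝ} {q : K × K} (h : Adm σ q) {n : ℕ} (hn : 3 ≤ n) :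
    (n : ℝ) * (Real.log 2 / 5) ≤ - Real.log (σ (gg σ q n)) := by
  have h1 := h.log_gg n
  have h2 : (n : ℝ) ≤ 5 * ((n / 3 : ℕ) : ℝ) := by
    have : n ≤ 5 * (n / 3) := by omega
    exact_mod_cast this
  have h3 : 0 < Real.log 2 := Real.log_pos (by norm_num)
  nlinarith

/-- Eventually periodic real sequences are bounded. -/
theorem bdd_of_periodic {f : ℕ → ℝ} {N p : ℕ} (hp : 0 < p) (hf : ∀ n, N ≤ n → f (n + p) = f n) :
    ∃ C : ℝ, ∀ n, |f n| ≤ C := by
  refine ⟨∑ i ∈ Finset.range (N + p), |f i|, ?_⟩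
  intro n
  induction n using Nat.strong_induction_on with
  | _ n ih =>
    rcases lt_or_ge n (N + p) with hlt | hge
    · exact Finset.single_le_sum (f := fun i => |f i|) (fun i _ => abs_nonneg _)
        (Finset.mem_range.2 hlt)
    · have h1 := hf (n - p) (by omega)
      rw [show n - p + p = n by omega] at h1
      rw [h1]
      exact ih (n - p) (by omega)

theorem gg_period {σ : K →+* ℝ} {q : K × K} (h : Adm σ q) {N p : ℕ}
    (he : orb σ q (N + p) = orb σ q N) {n : ℕ} (hn : N ≤ n) :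
    gg σ (orb σ q n) p = gg σ (orb σ q N) p := by
  induction n, hn using Nat.le_induction with
  | base => rfl
  | succ n hn ih =>
    rw [← ih]
    have h1 : gg σ (orb σ q n) (p + 1) = gg σ (orb σ q n) p * (orb σ q (n + p)).1 := by
      rw [gg_succ, ← orb_add]
    have h2 : gg σ (orb σ q n) (1 + p) = (orb σ q n).1 * gg σ (orb σ q (n + 1)) p := by
      rw [gg_add, gg_succ, gg_zero, one_mul, orb_zero, ← orb_add]
    have h3 : orb σ q (n + p) = orb σ q n := KPer.shift he n hn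
    rw [add_comm 1 p, h1, h3] at h2
    have hne := (h.orbA n).ne
    have h4 : (orb σ q n).1 * gg σ (orb σ q n) p = (orb σ q n).1 * gg σ (orb σ q (n + 1)) p := by
      rw [← h2]; ring
    exact (mul_left_cancel₀ hne h4).symm

theorem gg_mul_period {σ : K →+* ℝ} {q : K × K} {N p : ℕ}
    (he : orb σ q (N + p) = orb σ q N) (j : ℕ) :
    gg σ q (N + j * p) = gg σ q N * gg σ (orb σ q N) p ^ j := by
  induction j with
  | zero => simp
  | succ j ih =>
    rw [show N + (j + 1) * p = (N + j * p) + p by ring, gg_add, ih, KPer.mul he N le_rfl j,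
      pow_succ, mul_assoc]

end general

section field

variable {K : Type*} [Field K] [NumberField K]

/-- A nonzero integral element has norm at least one in absolute value. -/
theorem one_le_norm {G : K} (hG : IsIntegral ℤ G) (hG0 : G ≠ 0) :
    (1 : ℝ) ≤ |((Algebra.norm ℚ G : ℚ) : ℝ)| := by
  obtain ⟨n, hn0, hn, -⟩ := exists_natNorm hG hG0
  rw [hn]
  exact_mod_cast hn0

omit [NumberField K] in
theorem Adm.gg_lt_one {σ : K →+* ℝ} {q : K × K} (h : Adm σ q) {n : ℕ} (hn : 0 < n) :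
    σ (gg σ q n) < 1 := by
  obtain ⟨m, rfl⟩ := Nat.exists_eq_succ_of_ne_zero hn.ne'
  have hanti : Antitone (fun k => σ (gg σ q k)) := antitone_nat_of_succ_le h.wt.mono
  have h1 : σ (gg σ q m) ≤ σ (gg σ q 0) := hanti (Nat.zero_le m)
  rw [gg_zero, map_one] at h1
  rw [Nat.succ_eq_add_one, gg_succ, map_mul]
  have h2 := (h.orbA m).y0
  have h3 := (h.orbA m).y1
  have h4 := h.σgg_pos m
  nlinarith

/-- The period product has conjugates of different absolute value. -/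
theorem Conj.period_ne {σ τ₁ τ₂ : K →+* ℝ} (hc : Conj σ τ₁ τ₂) {q : K × K} (h : Adm σ q)
    {N p : ℕ} (hp : 0 < p) (he : orb σ q (N + p) = orb σ q N) :
    |τ₁ (gg σ (orb σ q N) p)| ≠ |τ₂ (gg σ (orb σ q N) p)| := by
  intro habs
  set Λ : K := gg σ (orb σ q N) p with hΛ
  have hΛσ : 0 < σ Λ := (h.orbA N).σgg_pos p
  have hΛ1 : σ Λ < 1 := (h.orbA N).gg_lt_one hp
  have hsq : τ₁ (Λ ^ 2) = τ₂ (Λ ^ 2) := by
    rw [map_pow, map_pow, ← sq_abs, habs, sq_abs]
  obtain ⟨r, hr⟩ := rat_of_eq hc.deg hc.h12 hsq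
  have hσr : (r : ℝ) = σ Λ ^ 2 := by
    have := congrArg σ hr
    rw [map_pow, map_ratCast] at this
    exact this.symm
  have hr0 : (0 : ℝ) < r := by rw [hσr]; positivity
  have hr1 : (r : ℝ) < 1 := by rw [hσr]; nlinarith
  obtain ⟨G, hG0, hG, hy, hz⟩ := exists_denominator q.1 q.2
  have key : ∀ i : ℕ, (1 : ℝ) ≤ |((Algebra.norm ℚ (G * gg σ q N) : ℚ) : ℝ)| * ((r : ℝ) ^ 3) ^ i := by
    intro i
    have h1 := (h.integral hG hy hz (N + (2 * i) * p)).1
    have h2 : G * gg σ q (N + (2 * i) * p) ≠ 0 := mul_ne_zero hG0 (h.gg_ne _)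
    have h3 := one_le_norm h1 h2
    have h4 : G * gg σ q (N + (2 * i) * p) = (G * gg σ q N) * algebraMap ℚ K (r ^ i) := by
      rw [gg_mul_period he, ← hΛ, pow_mul, hr]
      simp only [eq_ratCast, Rat.cast_pow]
      ring
    rw [h4, map_mul, Algebra.norm_algebraMap, hc.deg] at h3
    push_cast at h3
    rw [abs_mul, abs_of_pos (by positivity : (0 : ℝ) < ((r : ℝ) ^ i) ^ 3)] at h3
    rw [← pow_mul, mul_comm i 3, pow_mul] at h3
    exact h3
  have hlim : Tendsto (fun i : ℕ => |((Algebra.norm ℚ (G * gg σ q N) : ℚ) : ℝ)| * ((r : ℝ) ^ 3) ^ i)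
      atTop (𝓝 (|((Algebra.norm ℚ (G * gg σ q N) : ℚ) : ℝ)| * 0)) := by
    apply Tendsto.const_mul
    apply tendsto_pow_atTop_nhds_zero_of_lt_one (by positivity)
    exact pow_lt_one₀ hr0.le hr1 (by norm_num)
  rw [mul_zero] at hlim
  have := ge_of_tendsto' hlim key
  linarith

/-- The logarithmic difference of the conjugates of `y₀ ⋯ y_{k-1}`. -/
noncomputable def RR (σ τ₁ τ₂ : K →+* ℝ) (q : K × K) (k : ℕ) : ℝ :=
  Real.log |τ₁ (gg σ q k)| - Real.log |τ₂ (gg σ q k)|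

omit [NumberField K] in
theorem RR_add (σ τ₁ τ₂ : K →+* ℝ) {q : K × K} (h : Adm σ q) (k l : ℕ) :
    RR σ τ₁ τ₂ q (k + l) = RR σ τ₁ τ₂ q k + RR σ τ₁ τ₂ (orb σ q k) l := by
  have h1 : ∀ τ : K →+* ℝ, |τ (gg σ q k)| ≠ 0 := fun τ => by
    rw [abs_ne_zero, Ne, map_eq_zero]; exact h.gg_ne k
  have h2 : ∀ τ : K →+* ℝ, |τ (gg σ (orb σ q k) l)| ≠ 0 := fun τ => by
    rw [abs_ne_zero, Ne, map_eq_zero]; exact (h.orbA k).gg_ne l
  rw [RR, RR, RR, gg_add, map_mul, map_mul, abs_mul, abs_mul, Real.log_mul (h1 _) (h2 _),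
    Real.log_mul (h1 _) (h2 _)]
  ring

omit [NumberField K] in
theorem RR_sum (σ τ₁ τ₂ : K →+* ℝ) {q : K × K} (h : Adm σ q) (n : ℕ) :
    RR σ τ₁ τ₂ q n = ∑ j ∈ Finset.range n,
      Real.log (|τ₁ (orb σ q j).1| / |τ₂ (orb σ q j).1|) := by
  induction n with
  | zero => simp [RR, gg_zero]
  | succ n ih =>
    rw [RR_add σ τ₁ τ₂ h, ih, Finset.sum_range_succ]
    congr 1
    have h1 : ∀ τ : K →+* ℝ, |τ (orb σ q n).1| ≠ 0 := fun τ => by
      rw [abs_ne_zero, Ne, map_eq_zero]; exact (h.orbA n).ne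
    rw [RR, gg_succ, gg_zero, one_mul, orb_zero, Real.log_div (h1 _) (h1 _)]

/-- The nonperiodic case: equal growth rates. -/
theorem Conj.tendsto_zero {σ τ₁ τ₂ : K →+* ℝ} (hc : Conj σ τ₁ τ₂) {q : K × K} (h : Adm σ q)
    (hnp : ¬ KPer σ q) :
    Tendsto (fun k => RR σ τ₁ τ₂ q k / (- Real.log (σ (gg σ q k)))) atTop (𝓝 0) := by
  have h1 := hc.tendsto_one h hnp (c₀ := 0) (c₁ := 1) (c₂ := 0) (by simp)
  have h2 : Tendsto (fun k => Real.log (|τ₁ (orb σ q k).1| / |τ₂ (orb σ q k).1|)) atTop (𝓝 0) := by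
    have h3 : (fun k => Real.log (|τ₁ (orb σ q k).1| / |τ₂ (orb σ q k).1|))
        = Real.log ∘ (fun k => τ₁ (lin 0 1 0 (orb σ q k)) / τ₂ (lin 0 1 0 (orb σ q k))) := by
      funext k
      simp only [Function.comp, map_lin]
      rw [← abs_div, Real.log_abs]
      simp
    rw [h3, ← Real.log_one]
    exact (Real.continuousAt_log one_ne_zero).tendsto.comp h1
  have h4 := h2.cesaro
  have hl2 : 0 < Real.log 2 := Real.log_pos (by norm_num)
  have h5 : Tendsto (fun n : ℕ => |(n : ℝ)⁻¹ * ∑ i ∈ Finset.range n,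
      Real.log (|τ₁ (orb σ q i).1| / |τ₂ (orb σ q i).1|)| * (5 / Real.log 2)) atTop (𝓝 0) := by
    have := (h4.abs).mul_const (5 / Real.log 2)
    simpa using this
  refine squeeze_zero_norm' ?_ h5
  filter_upwards [eventually_ge_atTop 3] with n hn
  have hT := h.log_gg' hn
  have hn0 : (0 : ℝ) < n := by
    have : 0 < n := by omega
    exact_mod_cast this
  have hTpos : 0 < - Real.log (σ (gg σ q n)) := lt_of_lt_of_le (by positivity) hT
  rw [Real.norm_eq_abs, abs_div, abs_of_pos hTpos, ← RR_sum σ τ₁ τ₂ h, abs_mul, abs_inv,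
    abs_of_pos hn0]
  rw [div_le_iff₀ hTpos]
  have e : (n : ℝ)⁻¹ * |RR σ τ₁ τ₂ q n| * (5 / Real.log 2) * (n * (Real.log 2 / 5))
      = |RR σ τ₁ τ₂ q n| := by
    field_simp
  calc |RR σ τ₁ τ₂ q n| = (n : ℝ)⁻¹ * |RR σ τ₁ τ₂ q n| * (5 / Real.log 2) *
        (n * (Real.log 2 / 5)) := e.symm
    _ ≤ _ := mul_le_mul_of_nonneg_left hT (by positivity)

/-- The periodic case: different growth rates. -/
theorem Conj.tendsto_ne_zero {σ τ₁ τ₂ : K →+* ℝ} (hc : Conj σ τ₁ τ₂) {q : K × K} (h : Adm σ q)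
    (hp : KPer σ q) : ∃ ρ : ℝ, ρ ≠ 0 ∧
    Tendsto (fun k => RR σ τ₁ τ₂ q k / (- Real.log (σ (gg σ q k)))) atTop (𝓝 ρ) := by
  obtain ⟨N, p, hp0, he⟩ := hp
  have hne := hc.period_ne h hp0 he
  set Λ : K := gg σ (orb σ q N) p with hΛ
  have hΛσ : 0 < σ Λ := (h.orbA N).σgg_pos p
  have hΛ1 : σ Λ < 1 := (h.orbA N).gg_lt_one hp0
  have hT : 0 < - Real.log (σ Λ) := by
    have := Real.log_neg hΛσ hΛ1
    linarith
  have hΛ0 : Λ ≠ 0 := (h.orbA N).gg_ne p
  set ρ : ℝ := (Real.log |τ₁ Λ| - Real.log |τ₂ Λ|) / (- Real.log (σ Λ)) with hρ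
  refine ⟨ρ, ?_, ?_⟩
  · rw [hρ]
    apply div_ne_zero _ hT.ne'
    intro e
    apply hne
    have h1 : 0 < |τ₁ Λ| := abs_pos.2 (by rw [Ne, map_eq_zero]; exact hΛ0)
    have h2 : 0 < |τ₂ Λ| := abs_pos.2 (by rw [Ne, map_eq_zero]; exact hΛ0)
    exact Real.log_injOn_pos h1 h2 (by linarith)
  · have hf : ∀ n, N ≤ n → (RR σ τ₁ τ₂ q (n + p) - ρ * (- Real.log (σ (gg σ q (n + p)))))
        = (RR σ τ₁ τ₂ q n - ρ * (- Real.log (σ (gg σ q n)))) := by
      intro n hn
      have e1 := RR_add σ τ₁ τ₂ h n p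
      have e2 : RR σ τ₁ τ₂ (orb σ q n) p = Real.log |τ₁ Λ| - Real.log |τ₂ Λ| := by
        rw [RR, gg_period h he hn]
      have e3 : Real.log (σ (gg σ q (n + p))) = Real.log (σ (gg σ q n)) + Real.log (σ Λ) := by
        rw [gg_add, gg_period h he hn, map_mul, Real.log_mul (h.σgg_pos n).ne' hΛσ.ne']
      have e4 : ρ * (- Real.log (σ Λ)) = Real.log |τ₁ Λ| - Real.log |τ₂ Λ| := by
        rw [hρ, div_mul_cancel₀ _ hT.ne']
      rw [e1, e2, e3, ← e4]
      ring
    obtain ⟨C, hC⟩ := bdd_of_periodic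
      (f := fun n => RR σ τ₁ τ₂ q n - ρ * (- Real.log (σ (gg σ q n)))) hp0 hf
    have hl2 : 0 < Real.log 2 := Real.log_pos (by norm_num)
    have hTt : Tendsto (fun n => - Real.log (σ (gg σ q n))) atTop atTop := by
      have h1 : Tendsto (fun n : ℕ => (n : ℝ) * (Real.log 2 / 5)) atTop atTop :=
        Tendsto.atTop_mul_const (by positivity) tendsto_natCast_atTop_atTop
      refine tendsto_atTop_mono' _ ?_ h1
      filter_upwards [eventually_ge_atTop 3] with n hn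
      exact h.log_gg' hn
    have h0 : Tendsto (fun n => (RR σ τ₁ τ₂ q n - ρ * (- Real.log (σ (gg σ q n)))) /
        (- Real.log (σ (gg σ q n)))) atTop (𝓝 0) := by
      have h2 : Tendsto (fun n => C / (- Real.log (σ (gg σ q n)))) atTop (𝓝 0) :=
        hTt.const_div_atTop C
      refine squeeze_zero_norm' ?_ h2
      filter_upwards [hTt.eventually_gt_atTop 0] with n hn
      rw [Real.norm_eq_abs, abs_div, abs_of_pos hn]
      exact div_le_div_of_nonneg_right (hC n) hn.le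
    have h3 := h0.add_const ρ
    rw [zero_add] at h3
    refine h3.congr' ?_
    filter_upwards [hTt.eventually_gt_atTop 0] with n hn
    rw [sub_div, mul_div_cancel_right₀ _ hn.ne']
    ring

end field

end Pool.Agent.helper960_jp
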