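import Mathlib

/-!
# Linear recurrences attached to the two dimensional Jacobi-Perron algorithm

`Rec a b X` : the sequence `X` satisfies `X (k+3) = a k * X (k+2) + b k * X (k+1) + X k` with
`1 ≤ a k` and `0 ≤ b k ≤ a k`.

`Wt a b p q r` : `(p k, q k, r k)` is the sequence of (unnormalised) Jacobi-Perron vectors.

The main facts are a sign lemma (`Rec.eventually_nonneg`) and the uniqueness of the point with a
given digit sequence (`Wt.unique`).
-/

set_option autoImplicit false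

namespace Pool.Agent.helper960_jp

open Filter Topology

/-- The transposed Jacobi-Perron recurrence. -/
structure Rec (a b : ℕ → ℝ) (X : ℕ → ℝ) : Prop where
  ha : ∀ k, 1 ≤ a k
  hb : ∀ k, 0 ≤ b k
  hab : ∀ k, b k ≤ a k
  hrec : ∀ k, X (k + 3) = a k * X (k + 2) + b k * X (k + 1) + X k

/-- The sequence of unnormalised Jacobi-Perron vectors `(p, q, r)`. -/
structure Wt (a b p q r : ℕ → ℝ) : Prop where
  hp : ∀ k, 0 < p k
  hq : ∀ k, 0 < q k
  hr : ∀ k, 0 < r k
  hqp : ∀ k, q k ≤ p k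
  hrp : ∀ k, r k ≤ p k
  ep : ∀ k, p (k + 1) = q k
  eq : ∀ k, q (k + 1) = r k - b k * q k
  er : ∀ k, r (k + 1) = p k - a k * q k

theorem Rec.neg {a b X : ℕ → ℝ} (h : Rec a b X) : Rec a b (fun k => - X k) where
  ha := h.ha
  hb := h.hb
  hab := h.hab
  hrec := by
    intro k
    show - X (k + 3) = a k * (- X (k + 2)) + b k * (- X (k + 1)) + - X k
    rw [h.hrec k]; ring

/-- If `X (k+3)` is positive and exceeds the three previous absolute values, then three consecutive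
terms are nonnegative. -/
theorem Rec.window_of_jump {a b X : ℕ → ℝ} (h : Rec a b X) (k : ℕ)
    (h0 : |X k| < X (k + 3)) (h1 : |X (k + 1)| < X (k + 3)) (h2 : |X (k + 2)| < X (k + 3)) :
    ∃ j, 0 ≤ X j ∧ 0 ≤ X (j + 1) ∧ 0 ≤ X (j + 2) := by
  have ha0 := h.ha k
  have hb0 := h.hb k
  have hab0 := h.hab k
  have ha1 := h.ha (k + 1)
  have hb1 := h.hb (k + 1)
  have hab1 := h.hab (k + 1)
  have ha2 := h.ha (k + 2)
  have hb2 := h.hb (k + 2)
  have hab2 := h.hab (k + 2)
  have e3 := h.hrec k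
  have e4 : X (k + 4) = a (k + 1) * X (k + 3) + b (k + 1) * X (k + 2) + X (k + 1) := h.hrec (k + 1)
  have e5 : X (k + 5) = a (k + 2) * X (k + 4) + b (k + 2) * X (k + 3) + X (k + 2) := h.hrec (k + 2)
  have hs : 0 < X (k + 3) := lt_of_le_of_lt (abs_nonneg _) h0
  have hp := abs_lt.1 h0
  have hq := abs_lt.1 h1
  have hr := abs_lt.1 h2
  rcases le_or_gt 0 (X (k + 2)) with hr0 | hr0
  · refine ⟨k + 2, hr0, hs.le, ?_⟩
    show 0 ≤ X (k + 4)
    have : X (k + 3) ≤ a (k + 1) * X (k + 3) := by nlinarith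
    have : 0 ≤ b (k + 1) * X (k + 2) := mul_nonneg hb1 hr0
    linarith
  · have h6 : 0 < a k * X (k + 2) + b k * X (k + 1) := by linarith
    have hq0 : 0 < X (k + 1) := by
      by_contra hcon
      push Not at hcon
      nlinarith
    have h7 : b k * X (k + 1) ≤ a k * X (k + 1) := mul_le_mul_of_nonneg_right hab0 hq0.le
    have h8 : 0 < a k * (X (k + 2) + X (k + 1)) := by linarith [mul_add (a k) (X (k+2)) (X (k+1))]
    have h9 : 0 < X (k + 2) + X (k + 1) := by
      by_contra hcon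
      push Not at hcon
      nlinarith
    have h10 : a (k + 1) * X (k + 2) ≤ b (k + 1) * X (k + 2) := by nlinarith
    have h11 : 0 < a (k + 1) * (X (k + 3) + X (k + 2)) := by
      apply mul_pos (by linarith) (by linarith)
    have h12 : X (k + 1) < X (k + 4) := by
      rw [e4]; nlinarith
    have h13 : 0 < X (k + 5) := by
      rw [e5]
      have : X (k + 4) ≤ a (k + 2) * X (k + 4) := by nlinarith
      have : 0 ≤ b (k + 2) * X (k + 3) := mul_nonneg hb2 hs.le
      linarith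
    refine ⟨k + 3, hs.le, ?_, ?_⟩
    · show 0 ≤ X (k + 4)
      linarith
    · exact h13.le

/-- If no three consecutive terms have the same weak sign, the sequence is bounded. -/
theorem Rec.bdd {a b X : ℕ → ℝ} (h : Rec a b X)
    (hpos : ∀ j, ¬ (0 ≤ X j ∧ 0 ≤ X (j + 1) ∧ 0 ≤ X (j + 2)))
    (hneg : ∀ j, ¬ (X j ≤ 0 ∧ X (j + 1) ≤ 0 ∧ X (j + 2) ≤ 0)) :
    ∃ m : ℝ, ∀ k, |X k| ≤ m := by
  refine ⟨max (max |X 0| |X 1|) |X 2|, ?_⟩
  have step : ∀ k, |X (k + 3)| ≤ max (max |X k| |X (k + 1)|) |X (k + 2)| := by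
    intro k
    by_contra hcon
    push Not at hcon
    have h0 : |X k| < |X (k + 3)| := lt_of_le_of_lt (le_trans (le_max_left _ _) (le_max_left _ _)) hcon
    have h1 : |X (k + 1)| < |X (k + 3)| :=
      lt_of_le_of_lt (le_trans (le_max_right _ _) (le_max_left _ _)) hcon
    have h2 : |X (k + 2)| < |X (k + 3)| := lt_of_le_of_lt (le_max_right _ _) hcon
    rcases le_or_gt 0 (X (k + 3)) with hs | hs
    · rw [abs_of_nonneg hs] at h0 h1 h2
      obtain ⟨j, hj⟩ := h.window_of_jump k h0 h1 h2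
      exact hpos j hj
    · rw [abs_of_neg hs] at h0 h1 h2
      obtain ⟨j, hj⟩ := h.neg.window_of_jump k (by simpa using h0) (by simpa using h1)
        (by simpa using h2)
      apply hneg j
      refine ⟨?_, ?_, ?_⟩
      · have := hj.1; linarith
      · have := hj.2.1; linarith
      · have := hj.2.2; linarith
  have key : ∀ k, |X k| ≤ max (max |X 0| |X 1|) |X 2| ∧ |X (k + 1)| ≤ max (max |X 0| |X 1|) |X 2| ∧
      |X (k + 2)| ≤ max (max |X 0| |X 1|) |X 2| := by
    intro k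
    induction k with
    | zero =>
      exact ⟨le_trans (le_max_left _ _) (le_max_left _ _),
        le_trans (le_max_right _ _) (le_max_left _ _), le_max_right _ _⟩
    | succ n ih =>
      refine ⟨ih.2.1, ih.2.2, ?_⟩
      exact le_trans (step n) (max_le (max_le ih.1 ih.2.1) ih.2.2)
  exact fun k => (key k).1

/-- Three consecutive nonnegative terms propagate. -/
theorem Rec.nonneg_of_window {a b X : ℕ → ℝ} (h : Rec a b X) (j : ℕ)
    (h0 : 0 ≤ X j) (h1 : 0 ≤ X (j + 1)) (h2 : 0 ≤ X (j + 2)) : ∀ k, j ≤ k → 0 ≤ X k := by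
  have key : ∀ n, 0 ≤ X (j + n) ∧ 0 ≤ X (j + n + 1) ∧ 0 ≤ X (j + n + 2) := by
    intro n
    induction n with
    | zero => exact ⟨h0, h1, h2⟩
    | succ n ih =>
      refine ⟨ih.2.1, ih.2.2, ?_⟩
      have e := h.hrec (j + n)
      have e' : X (j + (n + 1) + 2) = X (j + n + 3) := by congr 1
      rw [e', e]
      have := h.ha (j + n)
      have := h.hb (j + n)
      have := mul_nonneg (by linarith : (0:ℝ) ≤ a (j + n)) ih.2.2
      have := mul_nonneg (h.hb (j + n)) ih.2.1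
      linarith [ih.1]
  intro k hk
  obtain ⟨n, rfl⟩ := Nat.exists_eq_add_of_le hk
  exact (key n).1

theorem Rec.mono_of_nonneg {a b X : ℕ → ℝ} (h : Rec a b X) (j : ℕ)
    (hX : ∀ k, j ≤ k → 0 ≤ X k) : ∀ k, j + 2 ≤ k → X k ≤ X (k + 1) := by
  intro k hk
  obtain ⟨n, rfl⟩ := Nat.exists_eq_add_of_le hk
  have e := h.hrec (j + n)
  have e' : X (j + 2 + n + 1) = X (j + n + 3) := by congr 1; ring
  have e'' : X (j + 2 + n) = X (j + n + 2) := by congr 1; ring
  rw [e', e'', e]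
  have h1 := h.ha (j + n)
  have h2 := hX (j + n) (by omega)
  have h3 := hX (j + n + 1) (by omega)
  have h4 := hX (j + n + 2) (by omega)
  have h5 : X (j + n + 2) ≤ a (j + n) * X (j + n + 2) := by nlinarith
  have h6 := mul_nonneg (h.hb (j + n)) h3
  linarith

theorem Wt.half {a b p q r : ℕ → ℝ} (h : Wt a b p q r) (ha : ∀ k, 1 ≤ a k) (hb : ∀ k, 0 ≤ b k)
    (k : ℕ) : 2 * p (k + 3) ≤ p k := by
  have e1 := h.er k
  have e2 := h.eq (k + 1)
  have e3 := h.ep k
  have e4 := h.ep (k + 1)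
  have e5 := h.ep (k + 2)
  have e4' : p (k + 2) = q (k + 1) := e4
  have e5' : p (k + 3) = q (k + 2) := e5
  have e2' : q (k + 2) = r (k + 1) - b (k + 1) * q (k + 1) := e2
  have h1 : q k ≤ a k * q k := by nlinarith [ha k, h.hq k]
  have h2 : 0 ≤ b (k + 1) * q (k + 1) := mul_nonneg (hb _) (h.hq _).le
  have h3 : q (k + 1) ≤ p (k + 1) := h.hqp _
  have h4 : q (k + 2) ≤ p (k + 2) := h.hqp _
  linarith

theorem Wt.mono {a b p q r : ℕ → ℝ} (h : Wt a b p q r) (k : ℕ) : p (k + 1) ≤ p k := by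
  rw [h.ep k]; exact h.hqp k

theorem Wt.bound {a b p q r : ℕ → ℝ} (h : Wt a b p q r) (ha : ∀ k, 1 ≤ a k) (hb : ∀ k, 0 ≤ b k)
    (k : ℕ) : p (3 * k) ≤ p 0 * (1 / 2) ^ k := by
  induction k with
  | zero => simp
  | succ n ih =>
    have := h.half ha hb (3 * n)
    have e : 3 * (n + 1) = 3 * n + 3 := by ring
    rw [e, pow_succ]
    linarith

theorem Wt.tendsto {a b p q r : ℕ → ℝ} (h : Wt a b p q r) (ha : ∀ k, 1 ≤ a k)
    (hb : ∀ k, 0 ≤ b k) : Tendsto p atTop (𝓝 0) := by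
  have hanti : Antitone p := antitone_nat_of_succ_le h.mono
  have hsub : Tendsto (fun k => p (3 * k)) atTop (𝓝 0) := by
    have h1 : Tendsto (fun k : ℕ => p 0 * (1 / 2 : ℝ) ^ k) atTop (𝓝 0) := by
      have := (tendsto_pow_atTop_nhds_zero_of_lt_one (r := (1 / 2 : ℝ)) (by norm_num)
        (by norm_num)).const_mul (p 0)
      simpa using this
    exact squeeze_zero (fun k => (h.hp _).le) (fun k => h.bound ha hb k) h1
  rw [Metric.tendsto_atTop] at hsub ⊢
  intro ε hε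
  obtain ⟨N, hN⟩ := hsub ε hε
  refine ⟨3 * N, fun n hn => ?_⟩
  have h1 := hN N le_rfl
  have h2 : p n ≤ p (3 * N) := hanti hn
  have h3 := h.hp n
  rw [Real.dist_eq, sub_zero, abs_of_pos (h.hp _)] at h1
  rw [Real.dist_eq, sub_zero, abs_of_pos h3]
  linarith

theorem Wt.inv {a b p q r : ℕ → ℝ} (h : Wt a b p q r) {X : ℕ → ℝ} (hX : Rec a b X) (k : ℕ) :
    p k * X (k + 2) + q k * X k + r k * X (k + 1) = p 0 * X 2 + q 0 * X 0 + r 0 * X 1 := by
  induction k with
  | zero => simp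
  | succ n ih =>
    have e1 : X (n + 1 + 2) = a n * X (n + 2) + b n * X (n + 1) + X n := hX.hrec n
    have e2 : X (n + 1 + 1) = X (n + 2) := rfl
    rw [e1, e2, h.ep n, h.eq n, h.er n, ← ih]
    ring

/-- **Sign lemma.** If the conserved quantity is positive, the dual sequence is eventually
nonnegative and nondecreasing. -/
theorem Wt.eventually_nonneg {a b p q r : ℕ → ℝ} (h : Wt a b p q r) {X : ℕ → ℝ}
    (hX : Rec a b X) (hD : 0 < p 0 * X 2 + q 0 * X 0 + r 0 * X 1) :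
    ∃ j, ∀ k, j ≤ k → 0 ≤ X k ∧ X k ≤ X (k + 1) := by
  set D := p 0 * X 2 + q 0 * X 0 + r 0 * X 1 with hDdef
  have hneg : ∀ j, ¬ (X j ≤ 0 ∧ X (j + 1) ≤ 0 ∧ X (j + 2) ≤ 0) := by
    rintro j ⟨h0, h1, h2⟩
    have e := h.inv hX j
    rw [← hDdef] at e
    have t1 := mul_nonneg (h.hp j).le (neg_nonneg.2 h2)
    have t2 := mul_nonneg (h.hq j).le (neg_nonneg.2 h0)
    have t3 := mul_nonneg (h.hr j).le (neg_nonneg.2 h1)
    linarith
  have hex : ∃ j, 0 ≤ X j ∧ 0 ≤ X (j + 1) ∧ 0 ≤ X (j + 2) := by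
    by_contra hcon
    push Not at hcon
    have hpos : ∀ j, ¬ (0 ≤ X j ∧ 0 ≤ X (j + 1) ∧ 0 ≤ X (j + 2)) := by
      rintro j ⟨h0, h1, h2⟩
      exact absurd h2 (not_le.2 (hcon j h0 h1))
    obtain ⟨m, hm⟩ := hX.bdd hpos hneg
    have hm0 : 0 ≤ m := le_trans (abs_nonneg _) (hm 0)
    have ht := h.tendsto hX.ha hX.hb
    rw [Metric.tendsto_atTop] at ht
    obtain ⟨N, hN⟩ := ht (D / (3 * (m + 1))) (by positivity)
    have h1 := hN N le_rfl
    rw [Real.dist_eq, sub_zero, abs_of_pos (h.hp _)] at h1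
    have e := h.inv hX N
    rw [← hDdef] at e
    have hpN := h.hp N
    have hqN := h.hq N
    have hrN := h.hr N
    have b1 : p N * X (N + 2) ≤ p N * m :=
      mul_le_mul_of_nonneg_left (le_trans (le_abs_self _) (hm _)) hpN.le
    have b2 : q N * X N ≤ p N * m :=
      le_trans (mul_le_mul_of_nonneg_left (le_trans (le_abs_self _) (hm _)) hqN.le)
        (mul_le_mul_of_nonneg_right (h.hqp N) hm0)
    have b3 : r N * X (N + 1) ≤ p N * m :=
      le_trans (mul_le_mul_of_nonneg_left (le_trans (le_abs_self _) (hm _)) hrN.le)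
        (mul_le_mul_of_nonneg_right (h.hrp N) hm0)
    have b4 : D ≤ 3 * (p N * m) := by linarith
    have b5 : p N * (3 * (m + 1)) < D := by
      rw [lt_div_iff₀ (by positivity)] at h1
      exact h1
    nlinarith
  obtain ⟨j, h0, h1, h2⟩ := hex
  have hnn := hX.nonneg_of_window j h0 h1 h2
  refine ⟨j + 2, fun k hk => ⟨hnn k (by omega), hX.mono_of_nonneg j hnn k hk⟩⟩

/-- Solution of the recurrence with given initial values. -/
noncomputable def recAux (a b : ℕ → ℝ) (x : ℝ × ℝ × ℝ) : ℕ → ℝ × ℝ × ℝ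
  | 0 => x
  | k + 1 => ((recAux a b x k).2.1, (recAux a b x k).2.2,
      a k * (recAux a b x k).2.2 + b k * (recAux a b x k).2.1 + (recAux a b x k).1)

theorem exists_rec (a b : ℕ → ℝ) (ha : ∀ k, 1 ≤ a k) (hb : ∀ k, 0 ≤ b k) (hab : ∀ k, b k ≤ a k)
    (x0 x1 x2 : ℝ) : ∃ X : ℕ → ℝ, Rec a b X ∧ X 0 = x0 ∧ X 1 = x1 ∧ X 2 = x2 := by
  refine ⟨fun k => (recAux a b (x0, x1, x2) k).1, ⟨ha, hb, hab, ?_⟩, rfl, rfl, rfl⟩
  intro k
  rfl

/-- **Uniqueness.** Two Jacobi-Perron vector sequences with the same digits and the same first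
coordinate agree. -/
theorem Wt.unique {a b p q r p' q' r' : ℕ → ℝ} (ha : ∀ k, 1 ≤ a k) (hb : ∀ k, 0 ≤ b k)
    (hab : ∀ k, b k ≤ a k) (h : Wt a b p q r) (h' : Wt a b p' q' r')
    (h1 : p 0 = 1) (h1' : p' 0 = 1) : q 0 = q' 0 ∧ r 0 = r' 0 := by
  -- it suffices to exclude a linear form vanishing on the first and positive on the second
  have key : ∀ c0 c1 c2 : ℝ, c0 + c1 * q 0 + c2 * r 0 = 0 → ¬ (0 < c0 + c1 * q' 0 + c2 * r' 0) := by
    intro c0 c1 c2 hz hpos
    obtain ⟨X, hX, e0, e1, e2⟩ := exists_rec a b ha hb hab c1 c2 c0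
    have hD : 0 < p' 0 * X 2 + q' 0 * X 0 + r' 0 * X 1 := by
      rw [h1', e0, e1, e2]; linarith
    obtain ⟨j, hj⟩ := h'.eventually_nonneg hX hD
    have i1 := h.inv hX j
    rw [h1, e0, e1, e2] at i1
    have n0 := (hj j le_rfl).1
    have n1 := (hj (j + 1) (by omega)).1
    have n2 := (hj (j + 2) (by omega)).1
    have t1 := mul_nonneg (h.hp j).le n2
    have t2 := mul_nonneg (h.hq j).le n0
    have t3 := mul_nonneg (h.hr j).le n1
    have z1 : p j * X (j + 2) = 0 := by linarith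
    have z2 : q j * X j = 0 := by linarith
    have z3 : r j * X (j + 1) = 0 := by linarith
    have z1' : X (j + 2) = 0 := (mul_eq_zero.1 z1).resolve_left (h.hp j).ne'
    have z2' : X j = 0 := (mul_eq_zero.1 z2).resolve_left (h.hq j).ne'
    have z3' : X (j + 1) = 0 := (mul_eq_zero.1 z3).resolve_left (h.hr j).ne'
    have i2 := h'.inv hX j
    rw [z1', z2', z3'] at i2
    linarith
  constructor
  · rcases lt_trichotomy (q 0) (q' 0) with hlt | heq | hgt
    · exact absurd (by linarith : (0:ℝ) < -q 0 + 1 * q' 0 + 0 * r' 0)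
        (key (-q 0) 1 0 (by ring))
    · exact heq
    · exact absurd (by linarith : (0:ℝ) < q 0 + (-1) * q' 0 + 0 * r' 0)
        (key (q 0) (-1) 0 (by ring))
  · rcases lt_trichotomy (r 0) (r' 0) with hlt | heq | hgt
    · exact absurd (by linarith : (0:ℝ) < -r 0 + 0 * q' 0 + 1 * r' 0)
        (key (-r 0) 0 1 (by ring))
    · exact heq
    · exact absurd (by linarith : (0:ℝ) < r 0 + 0 * q' 0 + (-1) * r' 0)
        (key (r 0) 0 (-1) (by ring))

end Pool.Agent.helper960_jp
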